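import Pool.Agent.H373R3.MY.Evo

/-!
# Averaging by fast switching
-/

set_option autoImplicit false

open Set Filter Topology MeasureTheory

namespace Pool.Agent.H373R3.MY

variable {E : Type*} [NormedAddCommGroup E] [NormedSpace ℝ E]

lemma fract_aesm {g : ℝ → ℝ → E} (hg : Continuous (fun p : ℝ × ℝ => g p.1 p.2)) (a c : ℝ)
    (μ : Measure ℝ) :
    AEStronglyMeasurable (fun s => g s (Int.fract (c * (s - a)))) μ := by
  have h1 : Measurable (fun s : ℝ => ((s, Int.fract (c * (s - a))) : ℝ × ℝ)) := by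
    apply Measurable.prodMk measurable_id
    exact measurable_fract.comp (measurable_const.mul (measurable_id.sub_const a))
  exact hg.comp_aestronglyMeasurable h1.aestronglyMeasurable

lemma fract_int {g : ℝ → ℝ → E} (hg : Continuous (fun p : ℝ × ℝ => g p.1 p.2)) (a c : ℝ)
    (p q : ℝ) : IntervalIntegrable (fun s => g s (Int.fract (c * (s - a)))) volume p q := by
  have hK : IsCompact (uIcc p q ×ˢ Icc (0:ℝ) 1) := isCompact_uIcc.prod isCompact_Icc
  obtain ⟨B, hB⟩ := hK.exists_bound_of_continuousOn hg.continuousOn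
  rw [intervalIntegrable_iff]
  refine IntegrableOn.of_bound (by simp) (fract_aesm hg a c _) B ?_
  rw [ae_restrict_iff' measurableSet_uIoc]
  refine Eventually.of_forall fun x hx => ?_
  exact hB (x, _) ⟨uIoc_subset_uIcc hx, Int.fract_nonneg _, (Int.fract_lt_one _).le⟩

lemma bar_cont {g : ℝ → ℝ → E} (hg : Continuous (fun p : ℝ × ℝ => g p.1 p.2)) :
    Continuous (fun s => ∫ r in (0:ℝ)..1, g s r) :=
  intervalIntegral.continuous_parametric_intervalIntegral_of_continuous' hg 0 1

/-- Fast switching averages. -/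
lemma avg [CompleteSpace E] {g : ℝ → ℝ → E} (hg : Continuous (fun p : ℝ × ℝ => g p.1 p.2)) (a : ℝ)
    {ε : ℝ} (hε : 0 < ε) :
    ∃ N : ℕ, 0 < N ∧ ∀ t ∈ Icc a (a + 1),
      ‖∫ s in a..t, (g s (Int.fract (N * (s - a))) - ∫ r in (0:ℝ)..1, g s r)‖ ≤ ε := by
  have hK : IsCompact (Icc a (a+1) ×ˢ Icc (0:ℝ) 1) := isCompact_Icc.prod isCompact_Icc
  obtain ⟨B, hB⟩ := hK.exists_bound_of_continuousOn hg.continuousOn
  have hB' : ∀ s ∈ Icc a (a+1), ∀ r ∈ Icc (0:ℝ) 1, ‖g s r‖ ≤ B := fun s hs r hr => hB (s, r) ⟨hs, hr⟩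
  have hB0 : 0 ≤ B := (norm_nonneg _).trans
    (hB' a ⟨le_rfl, by linarith⟩ 0 ⟨le_rfl, zero_le_one⟩)
  have huc := hK.uniformContinuousOn_of_continuous hg.continuousOn
  rw [Metric.uniformContinuousOn_iff] at huc
  obtain ⟨δ, hδ, hδ'⟩ := huc (ε/4) (by positivity)
  have hosc : ∀ s ∈ Icc a (a+1), ∀ s' ∈ Icc a (a+1), |s - s'| < δ → ∀ r ∈ Icc (0:ℝ) 1,
      ‖g s r - g s' r‖ ≤ ε/4 := by
    intro s hs s' hs' hss r hr
    have := hδ' (s, r) ⟨hs, hr⟩ (s', r) ⟨hs', hr⟩ (by
      rw [Prod.dist_eq]; simpa [Real.dist_eq] using hss)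
    rw [dist_eq_norm] at this
    exact this.le
  obtain ⟨N, hN⟩ := exists_nat_gt (max (1/δ) (4*B/ε))
  have hN1 : 1/δ < N := (le_max_left _ _).trans_lt hN
  have hN2 : 4*B/ε < N := (le_max_right _ _).trans_lt hN
  have hNpos : (0:ℝ) < N := lt_trans (by positivity) hN1
  have hNδ : 1/(N:ℝ) < δ := by
    rw [div_lt_iff₀ hδ] at hN1
    rw [div_lt_iff₀ hNpos]; linarith
  have hNB : 2*B/(N:ℝ) ≤ ε/2 := by
    rw [div_lt_iff₀ hε] at hN2
    rw [div_le_iff₀ hNpos]; linarith
  refine ⟨N, by exact_mod_cast hNpos, ?_⟩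
  set gb : ℝ → E := fun s => ∫ r in (0:ℝ)..1, g s r with hgb
  have hgbc : Continuous gb := bar_cont hg
  set h : ℝ → E := fun s => g s (Int.fract (N * (s - a))) - gb s with hh
  have hhi : ∀ p q, IntervalIntegrable h volume p q := fun p q =>
    (fract_int hg a N p q).sub (hgbc.intervalIntegrable p q)
  have hgosc : ∀ s ∈ Icc a (a+1), ∀ s' ∈ Icc a (a+1), |s - s'| < δ → ‖gb s - gb s'‖ ≤ ε/4 := by
    intro s hs s' hs' hss
    have hci : ∀ s, IntervalIntegrable (fun r => g s r) volume 0 1 := fun s =>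
      (hg.comp (Continuous.prodMk_right s)).intervalIntegrable 0 1
    rw [hgb]
    simp only
    rw [← intervalIntegral.integral_sub (hci s) (hci s')]
    have := intervalIntegral.norm_integral_le_of_norm_le_const (a := (0:ℝ)) (b := 1)
      (f := fun r => g s r - g s' r) (C := ε/4) (fun r hr => by
        rw [uIoc_of_le zero_le_one] at hr
        exact hosc s hs s' hs' hss r ⟨hr.1.le, hr.2⟩)
    simpa using this
  have hgbB : ∀ s ∈ Icc a (a+1), ‖gb s‖ ≤ B := by
    intro s hs
    have := intervalIntegral.norm_integral_le_of_norm_le_const (a := (0:ℝ)) (b := 1)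
      (f := fun r => g s r) (C := B) (fun r hr => by
        rw [uIoc_of_le zero_le_one] at hr
        exact hB' s hs r ⟨hr.1.le, hr.2⟩)
    simpa using this
  -- one full period
  have hstep : ∀ i : ℕ, i < N →
      ‖∫ s in (a + i/N)..(a + (i+1)/N), h s‖ ≤ (ε/2) * (1/N) := by
    intro i hi
    have hiN : ((i:ℝ)+1) ≤ N := by exact_mod_cast hi
    set p := a + (i:ℝ)/N with hp
    set q := a + ((i:ℝ)+1)/N with hq
    have hpq : q - p = 1/N := by rw [hp, hq]; ring
    have hpq' : p ≤ q := by have : 0 < 1/(N:ℝ) := by positivity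
                            linarith
    have hpa : a ≤ p := by rw [hp]; have : 0 ≤ (i:ℝ)/N := by positivity
                           linarith
    have hqa : q ≤ a + 1 := by
      rw [hq]
      have : ((i:ℝ)+1)/N ≤ 1 := by rw [div_le_one hNpos]; exact hiN
      linarith
    have hNp : (N:ℝ) * (p - a) = i := by rw [hp]; field_simp; ring
    have hNq : (N:ℝ) * (q - a) = i + 1 := by rw [hq]; field_simp; ring
    -- the frozen integral vanishes
    have h0 : ∫ s in p..q, (g p (N * s - N * p) - gb p) = 0 := by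
      have hci : IntervalIntegrable (fun s => g p (N * s - N * p)) volume p q := by
        apply Continuous.intervalIntegrable
        exact hg.comp (continuous_const.prodMk (by fun_prop))
      rw [intervalIntegral.integral_sub hci (by simp),
        intervalIntegral.integral_comp_mul_sub (f := fun r => g p r) hNpos.ne']
      have e1 : (N:ℝ) * p - N * p = 0 := by ring
      have e2 : (N:ℝ) * q - N * p = 1 := by
        have : (N:ℝ) * q - N * p = N * (q - p) := by ring
        rw [this, hpq]; field_simp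
      rw [e1, e2, intervalIntegral.integral_const, hpq, one_div]
      simp [hgb]
    have h1 : ∫ s in p..q, h s =
        ∫ s in p..q, (h s - (g p (N * s - N * p) - gb p)) := by
      rw [intervalIntegral.integral_sub (hhi p q), h0, sub_zero]
      apply Continuous.intervalIntegrable
      apply Continuous.sub _ continuous_const
      exact hg.comp (continuous_const.prodMk (by fun_prop))
    rw [h1]
    have h2 : ∀ᵐ s : ℝ, s ≠ q := by simp [ae_iff, measure_singleton]
    have h3 := intervalIntegral.norm_integral_le_of_norm_le_const_ae (a := p) (b := q)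
      (f := fun s => (h s - (g p (N * s - N * p) - gb p))) (C := ε/2) (by
        filter_upwards [h2] with s hs1 hs2
        rw [uIoc_of_le hpq'] at hs2
        have hs3 : s < q := lt_of_le_of_ne hs2.2 hs1
        have hs4 : s ∈ Icc a (a+1) := ⟨hpa.trans hs2.1.le, hs2.2.trans hqa⟩
        have hfr : Int.fract ((N:ℝ) * (s - a)) = N * s - N * p := by
          rw [Int.fract_eq_iff]
          have hl : (N:ℝ) * s - N * p = N * (s - p) := by ring
          have hu : (N:ℝ) * (s - p) < 1 := by
            have : s - p < 1/N := by linarith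
            rw [lt_div_iff₀ hNpos] at this
            linarith
          refine ⟨by rw [hl]; exact mul_nonneg hNpos.le (by linarith [hs2.1]), by rw [hl]; exact hu,
            (i:ℤ), ?_⟩
          have : (N:ℝ) * p = i + N * a := by rw [← hNp]; ring
          push_cast
          rw [this]; ring
        have hrr : (N:ℝ) * s - N * p ∈ Icc (0:ℝ) 1 := by
          rw [← hfr]
          exact ⟨Int.fract_nonneg _, (Int.fract_lt_one _).le⟩
        have hsp : |s - p| < δ := by
          rw [abs_of_pos (by linarith [hs2.1])]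
          linarith
        have hpm : p ∈ Icc a (a+1) := ⟨hpa, hpq'.trans hqa⟩
        rw [hh]
        simp only
        rw [hfr]
        have e : g s (N * s - N * p) - gb s - (g p (N * s - N * p) - gb p) =
          (g s (N * s - N * p) - g p (N * s - N * p)) - (gb s - gb p) := by abel
        rw [e]
        refine (norm_sub_le _ _).trans ?_
        have := hosc s hs4 p hpm hsp _ hrr
        have := hgosc s hs4 p hpm hsp
        linarith)
    rw [abs_of_nonneg (by linarith), hpq] at h3
    exact h3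
  have hind : ∀ i : ℕ, i ≤ N → ‖∫ s in a..(a + i/N), h s‖ ≤ (ε/2) * (i/N) := by
    intro i
    induction i with
    | zero => intro _; simp
    | succ i ih =>
      intro hi
      have e : ∫ s in a..(a + ((i+1:ℕ):ℝ)/N), h s = (∫ s in a..(a + (i:ℝ)/N), h s) +
          ∫ s in (a + (i:ℝ)/N)..(a + ((i:ℝ)+1)/N), h s := by
        rw [intervalIntegral.integral_add_adjacent_intervals (hhi _ _) (hhi _ _)]
        push_cast; rfl
      rw [e]
      refine (norm_add_le _ _).trans ?_
      have h1 := ih (by omega)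
      have h2 := hstep i (by omega)
      push_cast
      have : (ε/2) * (((i:ℝ)+1)/N) = (ε/2) * (i/N) + (ε/2) * (1/N) := by ring
      linarith
  intro t ht
  set i := ⌊(N:ℝ) * (t - a)⌋₊ with hi
  have ht0 : 0 ≤ (N:ℝ) * (t - a) := mul_nonneg hNpos.le (by linarith [ht.1])
  have hi1 : (i:ℝ) ≤ N * (t - a) := Nat.floor_le ht0
  have hi2 : N * (t - a) < (i:ℝ) + 1 := Nat.lt_floor_add_one _
  have hiN : (i:ℝ) ≤ N := hi1.trans (by nlinarith [ht.2])
  have hiN' : i ≤ N := by exact_mod_cast hiN
  have hpt : a + (i:ℝ)/N ≤ t := by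
    have : (i:ℝ)/N ≤ t - a := by rw [div_le_iff₀ hNpos]; linarith
    linarith
  have hpt2 : t - (a + (i:ℝ)/N) ≤ 1/N := by
    have : t - a ≤ ((i:ℝ)+1)/N := by rw [le_div_iff₀ hNpos]; linarith
    have e : ((i:ℝ)+1)/N = (i:ℝ)/N + 1/N := by ring
    linarith
  have hpa : a ≤ a + (i:ℝ)/N := by have : 0 ≤ (i:ℝ)/N := by positivity
                                   linarith
  have e : ∫ s in a..t, h s = (∫ s in a..(a + (i:ℝ)/N), h s) + ∫ s in (a + (i:ℝ)/N)..t, h s := by
    rw [intervalIntegral.integral_add_adjacent_intervals (hhi _ _) (hhi _ _)]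
  rw [e]
  refine (norm_add_le _ _).trans ?_
  have h1 := hind i hiN'
  have h2 := intervalIntegral.norm_integral_le_of_norm_le_const (a := a + (i:ℝ)/N) (b := t)
    (f := h) (C := 2 * B) (fun s hs => by
      rw [uIoc_of_le hpt] at hs
      have hs4 : s ∈ Icc a (a+1) := ⟨hpa.trans hs.1.le, hs.2.trans ht.2⟩
      rw [hh]
      refine (norm_sub_le _ _).trans ?_
      have := hB' s hs4 _ ⟨Int.fract_nonneg (N * (s - a)), (Int.fract_lt_one _).le⟩
      have := hgbB s hs4
      linarith)
  rw [abs_of_nonneg (by linarith)] at h2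
  have h3 : 2 * B * (t - (a + (i:ℝ)/N)) ≤ 2 * B / N := by
    have : 2 * B * (t - (a + (i:ℝ)/N)) ≤ 2 * B * (1/N) := by gcongr
    calc _ ≤ _ := this
      _ = 2 * B / N := by ring
  have h4 : (ε/2) * ((i:ℝ)/N) ≤ ε/2 := by
    have : (i:ℝ)/N ≤ 1 := by rw [div_le_one hNpos]; exact hiN
    nlinarith
  linarith

end Pool.Agent.H373R3.MY
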