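import Pool.Agent.H373R3.MY.Avg

/-!
# Following one solution by fast switching of the frozen Jacobians
-/

set_option autoImplicit false

open Set Filter Topology MeasureTheory

namespace Pool.Agent.H373R3.MY

lemma ev_floor_right {c : ℝ} (hc : 0 ≤ c) (d t : ℝ) :
    ∀ᶠ s in 𝓝[>] t, ⌊c * (s - d)⌋ = ⌊c * (t - d)⌋ := by
  have h1 : Tendsto (fun s : ℝ => c * (s - d)) (𝓝[>] t) (𝓝[≥] (c * (t - d))) := by
    rw [tendsto_nhdsWithin_iff]
    refine ⟨?_, ?_⟩
    · have : Continuous (fun s : ℝ => c * (s - d)) := by fun_prop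
      exact (this.tendsto t).mono_left nhdsWithin_le_nhds
    · filter_upwards [self_mem_nhdsWithin] with s hs
      have : t < s := hs
      exact mul_le_mul_of_nonneg_left (by linarith) hc
  have h2 := (tendsto_floor_right_pure_floor (c * (t - d))).comp h1
  rw [tendsto_pure] at h2
  exact h2

lemma ev_floor_left {c : ℝ} (hc : 0 < c) (d t : ℝ) :
    ∀ᶠ s in 𝓝[<] t, ⌊c * (s - d)⌋ = ⌈c * (t - d)⌉ - 1 := by
  have h1 : Tendsto (fun s : ℝ => c * (s - d)) (𝓝[<] t) (𝓝[<] (c * (t - d))) := by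
    rw [tendsto_nhdsWithin_iff]
    refine ⟨?_, ?_⟩
    · have : Continuous (fun s : ℝ => c * (s - d)) := by fun_prop
      exact (this.tendsto t).mono_left nhdsWithin_le_nhds
    · filter_upwards [self_mem_nhdsWithin] with s hs
      have : s < t := hs
      exact mul_lt_mul_of_pos_left (by linarith) hc
  have h2 := (tendsto_floor_left_pure_ceil_sub_one (c * (t - d))).comp h1
  rw [tendsto_pure] at h2
  exact h2

variable {E : Type*} [NormedAddCommGroup E] [NormedSpace ℝ E]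

/-- The switched path. -/
noncomputable def sw (t₀ : ℝ) (x : ℝ → E) (N : ℕ → ℕ) (t : ℝ) : E :=
  if t < t₀ then 0 else (Int.fract ((N ⌊t - t₀⌋₊ : ℝ) * (t - t₀))) • x t

lemma sw_norm (t₀ : ℝ) (x : ℝ → E) (N : ℕ → ℕ) (t : ℝ) : ‖sw t₀ x N t‖ ≤ ‖x t‖ := by
  unfold sw
  split_ifs with h
  · simp
  · rw [norm_smul, Real.norm_of_nonneg (Int.fract_nonneg _)]
    exact mul_le_of_le_one_left (norm_nonneg _) (Int.fract_lt_one _).le

lemma sw_zero {t₀ : ℝ} (x : ℝ → E) (N : ℕ → ℕ) {t : ℝ} (ht : t < t₀) : sw t₀ x N t = 0 := by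
  simp [sw, ht]

lemma sw_pc {t₀ : ℝ} {x : ℝ → E} (hx : ContinuousOn x (Ici t₀)) {N : ℕ → ℕ} (hN : ∀ k, 0 < N k) :
    PiecewiseContinuous (sw t₀ x N) := by
  have hxc : Continuous (fun s => x (max s t₀)) :=
    hx.comp_continuous (by fun_prop) (fun s => mem_Ici.2 (le_max_right s t₀))
  apply pc_of_local
  · intro t _
    rcases lt_or_ge t t₀ with h | h
    · refine ⟨fun _ => 0, ?_, 0, tendsto_const_nhds⟩
      have : ∀ᶠ s in 𝓝[>] t, s < t₀ := mem_nhdsWithin_of_mem_nhds (Iio_mem_nhds h)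
      filter_upwards [this] with s hs
      exact ⟨continuousAt_const, sw_zero x N hs⟩
    · set k := ⌊t - t₀⌋₊ with hk
      set j := ⌊(N k : ℝ) * (t - t₀)⌋ with hj
      have hGc : Continuous (fun s : ℝ => ((N k : ℝ) * (s - t₀) - j) • x (max s t₀)) := by
        apply Continuous.smul _ hxc
        fun_prop
      refine ⟨fun s => ((N k : ℝ) * (s - t₀) - j) • x (max s t₀), ?_, _,
        (hGc.tendsto t).mono_left nhdsWithin_le_nhds⟩
      filter_upwards [ev_floor_right zero_le_one t₀ t, ev_floor_right (Nat.cast_nonneg (N k)) t₀ t,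
        self_mem_nhdsWithin] with s hs1 hs2 hs3
      refine ⟨hGc.continuousAt, ?_⟩
      have hs4 : t < s := hs3
      have hs5 : ¬ s < t₀ := not_lt.2 (h.trans hs4.le)
      have hks : ⌊s - t₀⌋₊ = k := by
        rw [one_mul, one_mul] at hs1
        rw [hk, ← Int.floor_toNat, ← Int.floor_toNat, hs1]
      have hmax : max s t₀ = s := max_eq_left (not_lt.1 hs5)
      simp only [sw, hs5, if_false, hks, hmax]
      congr 1
      rw [Int.fract, hs2, hj]
  · intro t _
    rcases le_or_gt t t₀ with h | h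
    · refine ⟨fun _ => 0, ?_, 0, tendsto_const_nhds⟩
      filter_upwards [self_mem_nhdsWithin] with s hs
      have hs' : s < t := hs
      exact ⟨continuousAt_const, sw_zero x N (hs'.trans_le h)⟩
    · set k := (⌈t - t₀⌉ - 1).toNat with hk
      set j := ⌈(N k : ℝ) * (t - t₀)⌉ - 1 with hj
      have hGc : Continuous (fun s : ℝ => ((N k : ℝ) * (s - t₀) - j) • x (max s t₀)) := by
        apply Continuous.smul _ hxc
        fun_prop
      refine ⟨fun s => ((N k : ℝ) * (s - t₀) - j) • x (max s t₀), ?_, _,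
        (hGc.tendsto t).mono_left nhdsWithin_le_nhds⟩
      have hNk : (0:ℝ) < N k := by exact_mod_cast hN k
      have h5 : ∀ᶠ s in 𝓝[<] t, t₀ < s := mem_nhdsWithin_of_mem_nhds (Ioi_mem_nhds h)
      filter_upwards [ev_floor_left zero_lt_one t₀ t, ev_floor_left hNk t₀ t,
        h5] with s hs1 hs2 hs3
      refine ⟨hGc.continuousAt, ?_⟩
      have hs5 : ¬ s < t₀ := not_lt.2 hs3.le
      have hks : ⌊s - t₀⌋₊ = k := by
        rw [one_mul, one_mul] at hs1
        rw [hk, ← Int.floor_toNat, hs1]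
      have hmax : max s t₀ = s := max_eq_left hs3.le
      simp only [sw, hs5, if_false, hks, hmax]
      congr 1
      rw [Int.fract, hs2, hj]

lemma sol_cont {f : ℝ → E → E} {t₀ : ℝ} {x : ℝ → E} (hx : IsSolution f t₀ x) :
    ContinuousOn x (Ici t₀) := fun t ht => (hx t ht).continuousWithinAt

/-- Mean value formula. -/
lemma mean_value [CompleteSpace E] {f : ℝ → E → E} (h1 : G1 f) (h2 : G2 f)
    (hJ : ContinuousOn (fun p : ℝ × E => fderiv ℝ (f p.1) p.2) (Ici 0 ×ˢ univ))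
    {t : ℝ} (ht : 0 ≤ t) (y : E) :
    f t y = ∫ r in (0:ℝ)..1, fderiv ℝ (f t) (r • y) y := by
  have hd : ∀ r ∈ uIcc (0:ℝ) 1, HasDerivAt (fun r : ℝ => f t (r • y)) (fderiv ℝ (f t) (r • y) y) r := by
    intro r _
    have h3 : HasFDerivAt (f t) (fderiv ℝ (f t) (r • y)) (r • y) :=
      ((h1.contDiff t ht).differentiable (by norm_num) _).hasFDerivAt
    have h4 : HasDerivAt (fun r : ℝ => r • y) ((1:ℝ) • y) r := (hasDerivAt_id r).smul_const y
    have := h3.comp_hasDerivAt r h4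
    rw [one_smul] at this
    exact this
  have hc : Continuous (fun r : ℝ => fderiv ℝ (f t) (r • y) y) := by
    have : Continuous (fun r : ℝ => fderiv ℝ (f t) (r • y)) :=
      hJ.comp_continuous (f := fun r : ℝ => (t, r • y)) (by fun_prop) (fun r => ⟨ht, mem_univ _⟩)
    exact this.clm_apply continuous_const
  rw [intervalIntegral.integral_eq_sub_of_hasDerivAt hd (hc.intervalIntegrable _ _)]
  simp [h2 t ht]

/-- Following one solution. -/
lemma chatter [CompleteSpace E] {f : ℝ → E → E} (h1 : G1 f) (h2 : G2 f)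
    (hJ : ContinuousOn (fun p : ℝ × E => fderiv ℝ (f p.1) p.2) (Ici 0 ×ˢ univ))
    {t₀ : ℝ} (ht₀ : 0 ≤ t₀) {x : ℝ → E} (hx : IsSolution f t₀ x) {ε : ℝ} (hε : 0 < ε) :
    ∃ ω : ℝ → E, PiecewiseContinuous ω ∧ (∀ t, ‖ω t‖ ≤ ‖x t‖) ∧ (∀ t, t < t₀ → ω t = 0) ∧
      ∀ T, PiecewiseContinuous (fun t => fderiv ℝ (f t) (ω t)) →
        IsEvolutionOperator (fun t => fderiv ℝ (f t) (ω t)) T →
        ∀ t, t₀ ≤ t → ‖T t₀ t (x t) - x t₀‖ ≤ ε := by
  have hxc0 := sol_cont hx
  have hxc : Continuous (fun s => x (max s t₀)) :=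
    hxc0.comp_continuous (by fun_prop) (fun s => mem_Ici.2 (le_max_right s t₀))
  -- the two-parameter function
  set g : ℝ → ℝ → E := fun s r =>
    fderiv ℝ (f (max s t₀)) (r • x (max s t₀)) (x (max s t₀)) with hg
  have hJc : Continuous (fun p : ℝ × ℝ => fderiv ℝ (f (max p.1 t₀)) (p.2 • x (max p.1 t₀))) :=
    hJ.comp_continuous (f := fun p : ℝ × ℝ => (max p.1 t₀, p.2 • x (max p.1 t₀)))
      (by
        apply Continuous.prodMk (by fun_prop)
        exact continuous_snd.smul (hxc.comp continuous_fst))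
      (fun p => ⟨ht₀.trans (le_max_right _ _), mem_univ _⟩)
  have hgc : Continuous (fun p : ℝ × ℝ => g p.1 p.2) := hJc.clm_apply (hxc.comp continuous_fst)
  -- a priori bounds
  have hCex : ∀ k : ℕ, ∃ C : ℝ, 0 ≤ C ∧ ∀ t ∈ Icc t₀ (t₀ + k + 1), ∀ r ∈ Icc (0:ℝ) 1,
      ‖fderiv ℝ (f t) (r • x t)‖ ≤ C := by
    intro k
    have hK : IsCompact (Icc t₀ (t₀ + k + 1) ×ˢ Icc (0:ℝ) 1) := isCompact_Icc.prod isCompact_Icc
    obtain ⟨C, hC⟩ := hK.exists_bound_of_continuousOn hJc.continuousOn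
    refine ⟨max C 0, le_max_right _ _, fun t ht r hr => ?_⟩
    have := hC (t, r) ⟨ht, hr⟩
    simp only [max_eq_left ht.1] at this
    exact this.trans (le_max_left _ _)
  choose C hC0 hC using hCex
  have hNex : ∀ k : ℕ, ∃ N : ℕ, 0 < N ∧ ∀ t ∈ Icc (t₀ + k) (t₀ + k + 1),
      ‖∫ s in (t₀ + k)..t, (g s (Int.fract (N * (s - (t₀ + k)))) - ∫ r in (0:ℝ)..1, g s r)‖ ≤
        ε / 2 ^ (k + 1) * Real.exp (-(C k * (k + 2))) := fun k =>
    avg hgc (t₀ + k) (by positivity)
  choose N hN0 hN using hNex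
  refine ⟨sw t₀ x N, sw_pc hxc0 hN0, sw_norm t₀ x N, fun t ht => sw_zero x N ht, ?_⟩
  intro T hApc hT
  set A : ℝ → E →L[ℝ] E := fun t => fderiv ℝ (f t) (sw t₀ x N t) with hA
  have hAC : ∀ k : ℕ, ∀ t ∈ Icc t₀ (t₀ + k + 1), ‖A t‖ ≤ C k := by
    intro k t ht
    have : ¬ t < t₀ := not_lt.2 ht.1
    simp only [hA, sw, this, if_false]
    exact hC k t ht _ ⟨Int.fract_nonneg _, (Int.fract_lt_one _).le⟩
  have hgeq : ∀ t, t₀ ≤ t → f t (x t) = ∫ r in (0:ℝ)..1, g t r := by
    intro t ht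
    rw [mean_value h1 h2 hJ (ht₀.trans ht) (x t)]
    simp only [hg, max_eq_left ht]
  have hgbc : Continuous (fun s => ∫ r in (0:ℝ)..1, g s r) := bar_cont hgc
  have hcoc := fun {r s t : ℝ} (hr : 0 ≤ r) (hs : 0 ≤ s) (ht : 0 ≤ t) =>
    hT.cocycle hApc hr hs ht
  -- one window
  have hwin : ∀ k : ℕ, ∀ t ∈ Icc (t₀ + k) (t₀ + k + 1),
      ‖T t₀ t (x t) - T t₀ (t₀ + k) (x (t₀ + k))‖ ≤ ε / 2 ^ (k + 1) := by
    intro k t ht
    have hk0 : (0:ℝ) ≤ k := Nat.cast_nonneg k
    set a := t₀ + (k:ℝ) with ha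
    have ha0 : 0 ≤ a := by linarith
    have hta : t₀ ≤ a := by linarith
    have hti : t₀ ≤ t := hta.trans ht.1
    have hsub : Icc a (a+1) ⊆ Ici t₀ := fun s hs => hta.trans hs.1
    have hAx : ∀ s ∈ Ico a (a+1), A s (x s) = g s (Int.fract (N k * (s - a))) := by
      intro s hs
      have hst : t₀ ≤ s := hta.trans hs.1
      have h3 : ¬ s < t₀ := not_lt.2 hst
      have hk : ⌊s - t₀⌋₊ = k := by
        rw [Nat.floor_eq_iff (by linarith)]
        constructor
        · have := hs.1; rw [ha] at this; linarith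
        · have := hs.2; rw [ha] at this; linarith
      have hfr : Int.fract ((N k : ℝ) * (s - t₀)) = Int.fract ((N k : ℝ) * (s - a)) := by
        have e : (N k : ℝ) * (s - t₀) = (N k : ℝ) * (s - a) + ((N k * k : ℕ) : ℝ) := by
          rw [ha]; push_cast; ring
        rw [e, Int.fract_add_natCast]
      simp only [hA, sw, h3, if_false, hk, hg, max_eq_left hst, hfr]
    have hAxi : IntervalIntegrable (fun s => A s (x s)) volume a (a+1) := by
      have h3 := fract_int hgc a (N k) a (a+1)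
      refine h3.congr_ae ?_
      have h4 : ∀ᵐ s : ℝ, s ≠ a + 1 := by simp [ae_iff, measure_singleton]
      rw [Filter.EventuallyEq, ae_restrict_iff' measurableSet_uIoc]
      filter_upwards [h4] with s hs1 hs2
      rw [uIoc_of_le (by linarith)] at hs2
      exact (hAx s ⟨hs2.1.le, lt_of_le_of_ne hs2.2 hs1⟩).symm
    have hD : ∀ q ∈ Icc a (a+1), ‖x q - x a - ∫ s in a..q, A s (x s)‖ ≤
        ε / 2 ^ (k + 1) * Real.exp (-(C k * (k + 2))) := by
      intro q hq
      have e1 : x q - x a = ∫ s in a..q, ∫ r in (0:ℝ)..1, g s r := by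
        symm
        apply intervalIntegral.integral_eq_sub_of_hasDeriv_right_of_le hq.1
        · exact hxc0.mono (fun s hs => hta.trans hs.1)
        · intro s hs
          have hs1 : t₀ ≤ s := hta.trans hs.1.le
          have := hx s hs1
          rw [hgeq s hs1] at this
          exact this.mono (fun y hy => hs1.trans (le_of_lt hy))
        · exact hgbc.intervalIntegrable _ _
      have e2 : ∫ s in a..q, A s (x s) = ∫ s in a..q, g s (Int.fract (N k * (s - a))) := by
        apply intervalIntegral.integral_congr_ae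
        have h4 : ∀ᵐ s : ℝ, s ≠ a + 1 := by simp [ae_iff, measure_singleton]
        filter_upwards [h4] with s hs1 hs2
        rw [uIoc_of_le hq.1] at hs2
        exact hAx s ⟨hs2.1.le, lt_of_le_of_ne (hs2.2.trans hq.2) hs1⟩
      rw [e1, e2, ← intervalIntegral.integral_sub (hgbc.intervalIntegrable _ _)
        (fract_int hgc a (N k) a q)]
      have e3 : ∫ s in a..q, ((∫ r in (0:ℝ)..1, g s r) - g s (Int.fract (N k * (s - a)))) =
          - ∫ s in a..q, (g s (Int.fract (N k * (s - a))) - ∫ r in (0:ℝ)..1, g s r) := by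
        rw [← intervalIntegral.integral_neg]
        congr 1
        ext s
        abel
      rw [e3, norm_neg]
      exact hN k q hq
    have hw := window hApc hT (X := x) (a := a) (b := a + 1) (C := C k) ha0 (by linarith) (hC0 k)
      (hxc0.mono hsub) (fun s hs => hAC k s ⟨hta.trans hs.1, by rw [← ha]; exact hs.2⟩) hAxi hD t
      (by rw [ha]; exact ht)
    have ht0 : 0 ≤ t := ha0.trans ht.1
    have e4 : T t₀ t (x t) - T t₀ a (x a) = T t₀ t (x t - T t a (x a)) := by
      rw [map_sub, ← hcoc ha0 ht0 ht₀]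
      rfl
    have hTn : ‖T t₀ t‖ ≤ Real.exp (C k * (k + 1)) := by
      have := hT.norm_le (a := t₀) (b := t₀ + k + 1) ht₀ (hC0 k) (hAC k) (s := t) (t := t₀)
        ⟨hti, ht.2⟩ ⟨le_rfl, by linarith⟩
      refine this.trans ?_
      apply Real.exp_le_exp.2
      apply mul_le_mul_of_nonneg_left _ (hC0 k)
      rw [abs_of_nonpos (by linarith)]
      linarith [ht.2]
    rw [e4]
    calc ‖T t₀ t (x t - T t a (x a))‖ ≤ ‖T t₀ t‖ * ‖x t - T t a (x a)‖ := (T t₀ t).le_opNorm _
      _ ≤ Real.exp (C k * (k + 1)) *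
          (ε / 2 ^ (k + 1) * Real.exp (-(C k * (k + 2))) * Real.exp (C k * (t - a))) := by
          gcongr
      _ ≤ Real.exp (C k * (k + 1)) *
          (ε / 2 ^ (k + 1) * Real.exp (-(C k * (k + 2))) * Real.exp (C k * 1)) := by
          have : t - a ≤ 1 := by linarith [ht.2]
          have := hC0 k
          gcongr
      _ = ε / 2 ^ (k + 1) * (Real.exp (C k * (k + 1)) * Real.exp (-(C k * (k + 2))) *
          Real.exp (C k * 1)) := by ring
      _ = ε / 2 ^ (k + 1) := by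
          rw [← Real.exp_add, ← Real.exp_add]
          have : C k * (k + 1) + -(C k * (k + 2)) + C k * 1 = 0 := by ring
          rw [this, Real.exp_zero, mul_one]
  have hind : ∀ k : ℕ, ‖T t₀ (t₀ + k) (x (t₀ + k)) - x t₀‖ ≤ ε * (1 - 1 / 2 ^ k) := by
    intro k
    induction k with
    | zero =>
      simp [hT.self ht₀]
    | succ k ih =>
      have h3 := hwin k (t₀ + k + 1) ⟨by linarith, le_rfl⟩
      have e : t₀ + ((k+1:ℕ):ℝ) = t₀ + k + 1 := by push_cast; ring
      rw [e]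
      have e2 : T t₀ (t₀ + k + 1) (x (t₀ + k + 1)) - x t₀ =
          (T t₀ (t₀ + k + 1) (x (t₀ + k + 1)) - T t₀ (t₀ + k) (x (t₀ + k))) +
          (T t₀ (t₀ + k) (x (t₀ + k)) - x t₀) := by abel
      rw [e2]
      refine (norm_add_le _ _).trans ?_
      have e3 : ε * (1 - 1 / 2 ^ (k+1)) = ε / 2 ^ (k + 1) + ε * (1 - 1 / 2 ^ k) := by
        rw [pow_succ]; field_simp; ring
      linarith
  intro t ht
  set k := ⌊t - t₀⌋₊ with hk
  have hk1 : (k:ℝ) ≤ t - t₀ := Nat.floor_le (by linarith)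
  have hk2 : t - t₀ < k + 1 := Nat.lt_floor_add_one _
  have h3 := hwin k t ⟨by linarith, by linarith⟩
  have h4 := hind k
  have e2 : T t₀ t (x t) - x t₀ = (T t₀ t (x t) - T t₀ (t₀ + k) (x (t₀ + k))) +
      (T t₀ (t₀ + k) (x (t₀ + k)) - x t₀) := by abel
  rw [e2]
  refine (norm_add_le _ _).trans ?_
  have e3 : ε / 2 ^ (k + 1) + ε * (1 - 1 / 2 ^ k) ≤ ε := by
    have : ε / 2 ^ (k+1) ≤ ε * (1 / 2 ^ k) := by
      rw [mul_one_div]
      apply div_le_div_of_nonneg_left hε.le (by positivity)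
      apply pow_le_pow_right₀ (by norm_num) (by omega)
    linarith
  linarith

end Pool.Agent.H373R3.MY
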