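import Mathlib

/-!
# Definitions for the nonuniform nonautonomous Markus-Yamabe problem
-/

set_option autoImplicit false

open Set Filter Topology MeasureTheory

namespace Pool.Agent.H373R3.MY

/-- A function on `[0, ∞)` (its values at negative times play no role) is piecewise continuous:
its points of discontinuity are locally finite in `[0, ∞)`, and it has right limits at all `t ≥ 0`
and left limits at all `t > 0`. -/
def PiecewiseContinuous {F : Type*} [TopologicalSpace F] (g : ℝ → F) : Prop :=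
  (∃ D : Set ℝ, (∀ b : ℝ, (D ∩ Icc 0 b).Finite) ∧
    ∀ t : ℝ, 0 ≤ t → t ∉ D → ContinuousWithinAt g (Ici 0) t) ∧
  (∀ t : ℝ, 0 ≤ t → ∃ l : F, Tendsto g (𝓝[>] t) (𝓝 l)) ∧
  (∀ t : ℝ, 0 < t → ∃ l : F, Tendsto g (𝓝[<] t) (𝓝 l))

variable {E : Type*} [NormedAddCommGroup E] [NormedSpace ℝ E]

/-- `T` is the evolution operator of the linear equation `x' = A(t) x` on `[0, ∞)`: for all
`s, t ≥ 0` (in both orders) `T(t, s) = I + ∫_s^t A(τ) T(τ, s) dτ`, and `T(·, s)` is continuous. -/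
structure IsEvolutionOperator (A : ℝ → E →L[ℝ] E) (T : ℝ → ℝ → E →L[ℝ] E) : Prop where
  /-- `T(·, s)` is continuous on `[0, ∞)`. -/
  continuousOn : ∀ s : ℝ, 0 ≤ s → ContinuousOn (fun t => T t s) (Ici 0)
  /-- the integral form of the linear equation, with `T(s, s) = I` -/
  eq_integral : ∀ s t : ℝ, 0 ≤ s → 0 ≤ t →
    T t s = ContinuousLinearMap.id ℝ E + ∫ τ in s..t, (A τ).comp (T τ s)

/-- The equation `x' = A(t) x` has a nonuniform exponential dichotomy on `[0, ∞)` with the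
projections `P(t)`. -/
def HasNonuniformDichotomy (A : ℝ → E →L[ℝ] E) (P : ℝ → E →L[ℝ] E) : Prop :=
  (∀ t : ℝ, 0 ≤ t → (P t).comp (P t) = P t) ∧
  ∃ T : ℝ → ℝ → E →L[ℝ] E, IsEvolutionOperator A T ∧
    (∀ s t : ℝ, 0 ≤ s → 0 ≤ t → (T t s).comp (P s) = (P t).comp (T t s)) ∧
    ∃ K γ ε : ℝ, 1 ≤ K ∧ 0 ≤ ε ∧ ε < γ ∧
      (∀ s t : ℝ, 0 ≤ s → s ≤ t →
        ‖(T t s).comp (P s)‖ ≤ K * Real.exp (-γ * (t - s) + ε * s)) ∧
      (∀ t s : ℝ, 0 ≤ t → t ≤ s →
        ‖(T t s).comp (ContinuousLinearMap.id ℝ E - P s)‖ ≤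
          K * Real.exp (-γ * (s - t) + ε * s))

/-- `x` is a solution of `x' = f(t, x)` on `[t₀, ∞)`. -/
def IsSolution (f : ℝ → E → E) (t₀ : ℝ) (x : ℝ → E) : Prop :=
  ∀ t : ℝ, t₀ ≤ t → HasDerivWithinAt x (f t (x t)) (Ici t₀) t

/-- Hypothesis (G1): `f` is continuous on `[0, ∞) × E` and `C¹` in `x`, and for all `t₀ ≥ 0` and
`x₀` there is a solution on `[t₀, ∞)` starting at `x₀`. -/
structure G1 (f : ℝ → E → E) : Prop where
  /-- `f` is continuous. -/
  continuousOn : ContinuousOn (fun p : ℝ × E => f p.1 p.2) (Ici 0 ×ˢ univ)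
  /-- `f` is `C¹` in `x`. -/
  contDiff : ∀ t : ℝ, 0 ≤ t → ContDiff ℝ 1 (f t)
  /-- forward solutions are global -/
  exists_solution : ∀ t₀ : ℝ, 0 ≤ t₀ → ∀ x₀ : E, ∃ x : ℝ → E, x t₀ = x₀ ∧ IsSolution f t₀ x

/-- Hypothesis (G2): `f(t, 0) = 0` for all `t ≥ 0`. -/
def G2 (f : ℝ → E → E) : Prop := ∀ t : ℝ, 0 ≤ t → f t 0 = 0

/-- Hypothesis (G3): for every piecewise continuous `ω`, the linear equation
`x' = Jf(t, ω(t)) x` (its coefficient being piecewise continuous, as the notion requires) has a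
nonuniform exponential dichotomy with projections `P(t) = I`, that is, its nonuniform spectrum is
contained in `(-∞, 0)`. -/
def G3 (f : ℝ → E → E) : Prop :=
  ∀ ω : ℝ → E, PiecewiseContinuous ω →
    PiecewiseContinuous (fun t => fderiv ℝ (f t) (ω t)) ∧
    HasNonuniformDichotomy (fun t => fderiv ℝ (f t) (ω t)) (fun _ => ContinuousLinearMap.id ℝ E)

/-- Global nonuniform asymptotic stability of the origin for `x' = f(t, x)`. -/
def GloballyNonuniformlyAsymptoticallyStable (f : ℝ → E → E) : Prop :=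
  ∀ t₀ : ℝ, 0 ≤ t₀ →
    (∀ η : ℝ, 0 < η → ∃ δ : ℝ, 0 < δ ∧
      ∀ x : ℝ → E, IsSolution f t₀ x → ‖x t₀‖ < δ → ∀ t : ℝ, t₀ ≤ t → ‖x t‖ < η) ∧
    (∀ x : ℝ → E, IsSolution f t₀ x → Tendsto x atTop (𝓝 0))

end Pool.Agent.H373R3.MY
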