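import Pool.Agent.H373R3.MY.PC

/-!
# Evolution operators
-/

set_option autoImplicit false

open Set Filter Topology MeasureTheory

namespace Pool.Agent.H373R3.MY

/-- Gronwall, integral form, forward. -/
lemma gronF {u : ℝ → ℝ} {a b ε C : ℝ} (hC : 0 ≤ C) (hu : ContinuousOn u (Icc a b))
    (h : ∀ t ∈ Icc a b, u t ≤ ε + C * ∫ s in a..t, u s) :
    ∀ t ∈ Icc a b, u t ≤ ε * Real.exp (C * (t - a)) := by
  intro t ht
  have hab : a ≤ b := ht.1.trans ht.2
  have hui : IntervalIntegrable u volume a b :=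
    ContinuousOn.intervalIntegrable (by rwa [uIcc_of_le hab])
  have hcont : ContinuousOn (fun t => ε + C * ∫ s in a..t, u s) (Icc a b) := by
    apply continuousOn_const.add
    apply continuousOn_const.mul
    have := intervalIntegral.continuousOn_primitive_interval' hui (left_mem_uIcc)
    rwa [uIcc_of_le hab] at this
  have hd : ∀ x ∈ Ico a b, HasDerivWithinAt (fun t => ε + C * ∫ s in a..t, u s) (C * u x)
      (Ici x) x := by
    intro x hx
    have h1 : IntervalIntegrable u volume a x := hui.mono_set (by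
      rw [uIcc_of_le hab, uIcc_of_le hx.1]; exact Icc_subset_Icc_right hx.2.le)
    have h2 : ContinuousWithinAt u (Ioi x) x := by
      have := (hu x ⟨hx.1, hx.2.le⟩).mono_of_mem_nhdsWithin (t := Icc a b) (s := Ioi x) ?_
      · exact this
      · have : Ioc x b ∈ 𝓝[>] x := Ioc_mem_nhdsGT hx.2
        exact mem_of_superset this (fun y hy => ⟨hx.1.trans hy.1.le, hy.2⟩)
    have h3 : HasDerivWithinAt (fun t => ∫ s in a..t, u s) (u x) (Ici x) x := by
      apply intervalIntegral.integral_hasDerivWithinAt_right h1 (t := Ioi x)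
      · refine ⟨Ioc x b, Ioc_mem_nhdsGT hx.2, ?_⟩
        have : ContinuousOn u (Ioc x b) := hu.mono (fun y hy => ⟨hx.1.trans hy.1.le, hy.2⟩)
        exact this.aestronglyMeasurable measurableSet_Ioc
      · exact h2
    exact (h3.const_mul C).const_add ε
  have key := le_gronwallBound_of_liminf_deriv_right_le (δ := ε) (K := C) (ε := 0) hcont
    (fun x hx r hr => ((hd x hx).liminf_right_slope_le hr)) (by simp) (fun x hx => by
      have := h x ⟨hx.1, hx.2.le⟩
      have := mul_le_mul_of_nonneg_left this hC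
      simpa using this) t ht
  rw [gronwallBound_ε0] at key
  exact (h t ht).trans key

/-- Gronwall, integral form, backward. -/
lemma gronB {u : ℝ → ℝ} {a b ε C : ℝ} (hC : 0 ≤ C) (hu : ContinuousOn u (Icc a b))
    (h : ∀ t ∈ Icc a b, u t ≤ ε + C * ∫ s in t..b, u s) :
    ∀ t ∈ Icc a b, u t ≤ ε * Real.exp (C * (b - t)) := by
  intro t ht
  have h1 : ContinuousOn (fun r => u (-r)) (Icc (-b) (-a)) := by
    apply hu.comp continuousOn_neg
    intro r hr
    exact ⟨by linarith [hr.2], by linarith [hr.1]⟩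
  have h2 : ∀ r ∈ Icc (-b) (-a), u (-r) ≤ ε + C * ∫ s in (-b)..r, u (-s) := by
    intro r hr
    have := h (-r) ⟨by linarith [hr.2], by linarith [hr.1]⟩
    rwa [intervalIntegral.integral_comp_neg, neg_neg]
  have := gronF hC h1 h2 (-t) ⟨by linarith [ht.2], by linarith [ht.1]⟩
  simp only [neg_neg] at this
  convert this using 3
  ring

variable {E : Type*} [NormedAddCommGroup E] [NormedSpace ℝ E]

lemma intA {G : Type*} [NormedAddCommGroup G] [NormedSpace ℝ G] {L : Type*}
    [NormedAddCommGroup L] [NormedSpace ℝ L] {A : ℝ → L} (hA : PiecewiseContinuous A)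
    {Y : ℝ → G} (hY : ContinuousOn Y (Ici 0)) {H : Type*} [NormedAddCommGroup H] [NormedSpace ℝ H]
    (B : L →L[ℝ] G →L[ℝ] H) {a b : ℝ} (ha : 0 ≤ a) (hb : 0 ≤ b) :
    IntervalIntegrable (fun τ => B (A τ) (Y τ)) volume a b := by
  obtain ⟨C, hC⟩ := pc_bdd hA (max a b)
  have hsub : uIoc a b ⊆ Ici 0 := fun x hx => (le_min ha hb).trans (le_of_lt hx.1)
  have hsub2 : uIcc a b ⊆ Ici 0 := fun x hx => (le_min ha hb).trans hx.1
  have hm1 : AEStronglyMeasurable A (volume.restrict (uIoc a b)) :=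
    (pc_aesm hA).mono_measure (Measure.restrict_mono hsub le_rfl)
  have hm2 : AEStronglyMeasurable Y (volume.restrict (uIoc a b)) :=
    (hY.mono hsub).aestronglyMeasurable measurableSet_uIoc
  obtain ⟨C', hC'⟩ := isCompact_uIcc.exists_bound_of_continuousOn (hY.mono hsub2)
  rw [intervalIntegrable_iff]
  refine IntegrableOn.of_bound (by simp) ?_ (‖B‖ * C * C') ?_
  · have := B.continuous₂.comp_aestronglyMeasurable (hm1.prodMk hm2)
    exact this
  · rw [ae_restrict_iff' measurableSet_uIoc]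
    refine Eventually.of_forall fun x hx => ?_
    have h1 : ‖A x‖ ≤ C := hC x ⟨hsub hx, hx.2⟩
    have h2 : ‖Y x‖ ≤ C' := hC' x (uIoc_subset_uIcc hx)
    calc ‖B (A x) (Y x)‖ ≤ ‖B (A x)‖ * ‖Y x‖ := (B (A x)).le_opNorm _
      _ ≤ (‖B‖ * ‖A x‖) * ‖Y x‖ := by gcongr; exact B.le_opNorm _
      _ ≤ (‖B‖ * C) * C' := by
        have : 0 ≤ C := (norm_nonneg _).trans h1
        gcongr

lemma intA_comp {A : ℝ → E →L[ℝ] E} (hA : PiecewiseContinuous A)
    {Y : ℝ → E →L[ℝ] E} (hY : ContinuousOn Y (Ici 0)) {a b : ℝ} (ha : 0 ≤ a) (hb : 0 ≤ b) :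
    IntervalIntegrable (fun τ => (A τ).comp (Y τ)) volume a b :=
  intA hA hY (ContinuousLinearMap.compL ℝ E E E) ha hb

lemma intA_app {A : ℝ → E →L[ℝ] E} (hA : PiecewiseContinuous A)
    {Y : ℝ → E} (hY : ContinuousOn Y (Ici 0)) {a b : ℝ} (ha : 0 ≤ a) (hb : 0 ≤ b) :
    IntervalIntegrable (fun τ => (A τ) (Y τ)) volume a b :=
  intA hA hY (ContinuousLinearMap.id ℝ (E →L[ℝ] E)) ha hb

/-- Norm bound forward/backward from an integral equation. -/
lemma bound_of_eq {G : Type*} [NormedAddCommGroup G] [NormedSpace ℝ G]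
    {Y : ℝ → G} {W : ℝ → G} {a b C ε : ℝ} {s : ℝ} (hs : s ∈ Icc a b)
    (hC : 0 ≤ C) (hY : ContinuousOn Y (Icc a b))
    (hW : ∀ t ∈ Icc a b, ‖W t‖ ≤ C * ‖Y t‖)
    (h : ∀ t ∈ Icc a b, ‖Y t‖ ≤ ε + ‖∫ τ in s..t, W τ‖) :
    ∀ t ∈ Icc a b, ‖Y t‖ ≤ ε * Real.exp (C * |t - s|) := by
  intro t ht
  have hYn : ContinuousOn (fun t => ‖Y t‖) (Icc a b) := hY.norm
  rcases le_total s t with hst | hst
  · have := gronF (u := fun t => ‖Y t‖) (a := s) (b := b) hC
      (hYn.mono (Icc_subset_Icc_left hs.1)) (ε := ε) ?_ t ⟨hst, ht.2⟩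
    · rwa [abs_of_nonneg (by linarith)]
    · intro r hr
      refine (h r ⟨hs.1.trans hr.1, hr.2⟩).trans ?_
      gcongr
      rw [← intervalIntegral.integral_const_mul]
      apply intervalIntegral.norm_integral_le_of_norm_le hr.1
      · refine Eventually.of_forall fun x hx => hW x ⟨hs.1.trans hx.1.le, hx.2.trans hr.2⟩
      · apply ContinuousOn.intervalIntegrable
        rw [uIcc_of_le hr.1]
        exact continuousOn_const.mul (hYn.mono (fun x hx => ⟨hs.1.trans hx.1, hx.2.trans hr.2⟩))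
  · have := gronB (u := fun t => ‖Y t‖) (a := a) (b := s) hC
      (hYn.mono (Icc_subset_Icc_right hs.2)) (ε := ε) ?_ t ⟨ht.1, hst⟩
    · rwa [abs_of_nonpos (by linarith), neg_sub]
    · intro r hr
      refine (h r ⟨hr.1, hr.2.trans hs.2⟩).trans ?_
      gcongr
      rw [← intervalIntegral.integral_const_mul, intervalIntegral.integral_symm, norm_neg]
      apply intervalIntegral.norm_integral_le_of_norm_le hr.2
      · refine Eventually.of_forall fun x hx => hW x ⟨hr.1.trans hx.1.le, hx.2.trans hs.2⟩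
      · apply ContinuousOn.intervalIntegrable
        rw [uIcc_of_le hr.2]
        exact continuousOn_const.mul (hYn.mono (fun x hx => ⟨hr.1.trans hx.1, hx.2.trans hs.2⟩))

variable {A : ℝ → E →L[ℝ] E} {T : ℝ → ℝ → E →L[ℝ] E}

lemma IsEvolutionOperator.self (hT : IsEvolutionOperator A T) {s : ℝ} (hs : 0 ≤ s) :
    T s s = ContinuousLinearMap.id ℝ E := by
  rw [hT.eq_integral s s hs hs]; simp

lemma IsEvolutionOperator.norm_le (hT : IsEvolutionOperator A T) {a b C : ℝ} (ha : 0 ≤ a)
    (hC : 0 ≤ C) (hAC : ∀ t ∈ Icc a b, ‖A t‖ ≤ C) {s t : ℝ} (hs : s ∈ Icc a b) (ht : t ∈ Icc a b) :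
    ‖T t s‖ ≤ Real.exp (C * |t - s|) := by
  have hs0 : 0 ≤ s := ha.trans hs.1
  have := bound_of_eq (Y := fun t => T t s) (W := fun t => (A t).comp (T t s))
    (ε := 1) hs hC ((hT.continuousOn s hs0).mono (fun x hx => ha.trans hx.1)) ?_ ?_ t ht
  · simpa using this
  · intro r hr
    exact (ContinuousLinearMap.opNorm_comp_le _ _).trans (by gcongr; exact hAC r hr)
  · intro r hr
    rw [hT.eq_integral s r hs0 (ha.trans hr.1)]
    refine (norm_add_le _ _).trans ?_
    gcongr
    exact ContinuousLinearMap.norm_id_le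

/-- Two evolution operators agree where the coefficients agree. -/
lemma evo_congr {A' : ℝ → E →L[ℝ] E} {T' : ℝ → ℝ → E →L[ℝ] E} (hA : PiecewiseContinuous A)
    (hT : IsEvolutionOperator A T) (hT' : IsEvolutionOperator A' T') {a b : ℝ} (ha : 0 ≤ a)
    (heq : ∀ t ∈ Ioo a b, A t = A' t) {s t : ℝ} (hs : s ∈ Icc a b) (ht : t ∈ Icc a b) :
    T t s = T' t s := by
  have hs0 : 0 ≤ s := ha.trans hs.1
  obtain ⟨C, hC⟩ := pc_bdd hA b
  have hC0 : 0 ≤ C := (norm_nonneg _).trans (hC b ⟨ha.trans (hs.1.trans hs.2), le_rfl⟩)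
  have hcT := hT.continuousOn s hs0
  have hcT' := hT'.continuousOn s hs0
  have := bound_of_eq (Y := fun t => T t s - T' t s)
    (W := fun t => (A t).comp (T t s - T' t s))
    (ε := 0) hs hC0 ((hcT.sub hcT').mono (fun x hx => ha.trans hx.1)) ?_ ?_ t ht
  · rw [zero_mul] at this
    exact sub_eq_zero.1 (norm_le_zero_iff.1 this)
  · intro r hr
    exact (ContinuousLinearMap.opNorm_comp_le _ _).trans
      (by gcongr; exact hC r ⟨ha.trans hr.1, hr.2⟩)
  · intro r hr
    have hr0 : 0 ≤ r := ha.trans hr.1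
    rw [hT.eq_integral s r hs0 hr0, hT'.eq_integral s r hs0 hr0]
    have e1 : ∫ τ in s..r, (A' τ).comp (T' τ s) = ∫ τ in s..r, (A τ).comp (T' τ s) := by
      apply intervalIntegral.integral_congr_ae
      have h1 : ∀ᵐ x : ℝ, x ≠ b := by
        simp [ae_iff, measure_singleton]
      have h2 : ∀ᵐ x : ℝ, x ≠ a := by
        simp [ae_iff, measure_singleton]
      filter_upwards [h1, h2] with x hx1 hx2 hx
      have hx3 : x ∈ Icc a b := by
        have := uIoc_subset_uIcc hx
        have h3 : uIcc s r ⊆ Icc a b := by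
          intro y hy
          exact ⟨(le_min hs.1 hr.1).trans hy.1, hy.2.trans (max_le hs.2 hr.2)⟩
        exact h3 this
      rw [heq x ⟨lt_of_le_of_ne hx3.1 (Ne.symm hx2), lt_of_le_of_ne hx3.2 hx1⟩]
    have e2 : (ContinuousLinearMap.id ℝ E + ∫ τ in s..r, (A τ).comp (T τ s)) -
        (ContinuousLinearMap.id ℝ E + ∫ τ in s..r, (A' τ).comp (T' τ s)) =
        ∫ τ in s..r, (A τ).comp (T τ s - T' τ s) := by
      rw [e1, add_sub_add_left_eq_sub, ← intervalIntegral.integral_sub
        (intA_comp hA hcT hs0 hr0) (intA_comp hA hcT' hs0 hr0)]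
      congr 1
      ext τ
      simp
    rw [e2, zero_add]

lemma IsEvolutionOperator.eq_from (hA : PiecewiseContinuous A) (hT : IsEvolutionOperator A T)
    {r s t : ℝ} (hr : 0 ≤ r) (hs : 0 ≤ s) (ht : 0 ≤ t) :
    T t r = T s r + ∫ τ in s..t, (A τ).comp (T τ r) := by
  have hc := hT.continuousOn r hr
  rw [hT.eq_integral r t hr ht, hT.eq_integral r s hr hs, add_assoc,
    intervalIntegral.integral_add_adjacent_intervals (intA_comp hA hc hr hs)
      (intA_comp hA hc hs ht)]

/-- Cocycle property. -/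
lemma IsEvolutionOperator.cocycle [CompleteSpace E] (hA : PiecewiseContinuous A)
    (hT : IsEvolutionOperator A T)
    {r s t : ℝ} (hr : 0 ≤ r) (hs : 0 ≤ s) (ht : 0 ≤ t) :
    (T t s).comp (T s r) = T t r := by
  obtain ⟨C, hC⟩ := pc_bdd hA (max s t)
  have hC0 : 0 ≤ C := (norm_nonneg _).trans (hC t ⟨ht, le_max_right _ _⟩)
  have hcs := hT.continuousOn s hs
  have hcr := hT.continuousOn r hr
  have hcomp : ContinuousOn (fun t => (T t s).comp (T s r)) (Ici 0) :=
    (((ContinuousLinearMap.compL ℝ E E E).flip (T s r)).continuous.comp_continuousOn hcs)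
  have := bound_of_eq (Y := fun t => (T t s).comp (T s r) - T t r)
    (W := fun t => (A t).comp ((T t s).comp (T s r) - T t r))
    (ε := 0) (a := 0) (b := max s t) (s := s) ⟨hs, le_max_left _ _⟩ hC0
    ((hcomp.sub hcr).mono (fun x hx => hx.1)) ?_ ?_ t ⟨ht, le_max_right _ _⟩
  · rw [zero_mul] at this
    exact sub_eq_zero.1 (norm_le_zero_iff.1 this)
  · intro q hq
    exact (ContinuousLinearMap.opNorm_comp_le _ _).trans (by gcongr; exact hC q hq)
  · intro q hq
    have e1 : (T q s).comp (T s r) = T s r + ∫ τ in s..q, (A τ).comp ((T τ s).comp (T s r)) := by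
      rw [hT.eq_integral s q hs hq.1]
      have h3 := ((ContinuousLinearMap.compL ℝ E E E).flip (T s r)).intervalIntegral_comp_comm
        (intA_comp hA hcs hs hq.1)
      simp only [ContinuousLinearMap.flip_apply, ContinuousLinearMap.compL_apply] at h3
      rw [ContinuousLinearMap.add_comp, ContinuousLinearMap.id_comp, ← h3]
      rfl
    have e2 := hT.eq_from hA hr hs hq.1
    have e3 : (T q s).comp (T s r) - T q r =
        ∫ τ in s..q, (A τ).comp ((T τ s).comp (T s r) - T τ r) := by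
      rw [e1, e2, add_sub_add_left_eq_sub, ← intervalIntegral.integral_sub
        (intA_comp hA hcomp hs hq.1) (intA_comp hA hcr hs hq.1)]
      congr 1
      ext τ
      simp
    rw [e3, zero_add]

/-- Comparison on a window. -/
lemma window [CompleteSpace E] (hA : PiecewiseContinuous A)
    (hT : IsEvolutionOperator A T) {X : ℝ → E} {a b C ε : ℝ}
    (ha : 0 ≤ a) (hab : a ≤ b) (hC : 0 ≤ C) (hX : ContinuousOn X (Icc a b))
    (hAC : ∀ t ∈ Icc a b, ‖A t‖ ≤ C)
    (hXi : IntervalIntegrable (fun s => A s (X s)) volume a b)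
    (hD : ∀ t ∈ Icc a b, ‖X t - X a - ∫ s in a..t, A s (X s)‖ ≤ ε) :
    ∀ t ∈ Icc a b, ‖X t - T t a (X a)‖ ≤ ε * Real.exp (C * (t - a)) := by
  intro t ht
  have hcT := hT.continuousOn a ha
  have hcomp : ContinuousOn (fun t => T t a (X a)) (Ici 0) :=
    hcT.clm_apply continuousOn_const
  have := bound_of_eq (Y := fun t => X t - T t a (X a))
    (W := fun t => (A t) (X t - T t a (X a)))
    (ε := ε) (a := a) (b := b) (s := a) ⟨le_rfl, hab⟩ hC
    (hX.sub (hcomp.mono (fun x hx => ha.trans hx.1))) ?_ ?_ t ht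
  · rwa [abs_of_nonneg (by linarith [ht.1])] at this
  · intro q hq
    exact (ContinuousLinearMap.le_opNorm _ _).trans (by gcongr; exact hAC q hq)
  · intro q hq
    have hq0 : 0 ≤ q := ha.trans hq.1
    have e1 : T q a (X a) = X a + ∫ τ in a..q, (A τ) (T τ a (X a)) := by
      rw [hT.eq_integral a q ha hq0, _root_.add_apply,
        ContinuousLinearMap.intervalIntegral_apply (intA_comp hA hcT ha hq0)]
      simp
    have hi1 : IntervalIntegrable (fun s => A s (X s)) volume a q := hXi.mono_set (by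
      rw [uIcc_of_le hab, uIcc_of_le hq.1]; exact Icc_subset_Icc_right hq.2)
    have e3 : X q - T q a (X a) = (X q - X a - ∫ s in a..q, A s (X s)) +
        ∫ τ in a..q, (A τ) (X τ - T τ a (X a)) := by
      have : ∫ τ in a..q, (A τ) (X τ - T τ a (X a)) =
          (∫ s in a..q, A s (X s)) - ∫ τ in a..q, (A τ) (T τ a (X a)) := by
        rw [← intervalIntegral.integral_sub hi1 (intA_app hA hcomp ha hq0)]
        simp
      rw [this, e1]
      abel
    rw [e3]
    exact (norm_add_le _ _).trans (by gcongr; exact hD q hq)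

end Pool.Agent.H373R3.MY
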