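import Pool.Agent.H373R3.MY.UB

/-!
# Joint continuity of the Jacobian
-/

set_option autoImplicit false

open Set Filter Topology MeasureTheory

namespace Pool.Agent.H373R3.MY

variable {E : Type*} [NormedAddCommGroup E] [NormedSpace ℝ E]

/-- Tent function centred at `c` of half-width `c / 2`. -/
noncomputable def tent (c t : ℝ) : ℝ := max 0 (1 - |t - c| / (c / 2))

lemma tent_cont {c : ℝ} : Continuous (tent c) := by
  unfold tent; fun_prop

lemma tent_self (c : ℝ) : tent c c = 1 := by simp [tent]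

lemma tent_nonneg (c t : ℝ) : 0 ≤ tent c t := le_max_left _ _

lemma tent_le_one {c : ℝ} (hc : 0 < c) (t : ℝ) : tent c t ≤ 1 := by
  unfold tent
  apply max_le zero_le_one
  have : 0 ≤ |t - c| / (c / 2) := by positivity
  linarith

lemma tent_zero {c t : ℝ} (hc : 0 < c) (h : t ≤ c / 2 ∨ 3 / 2 * c ≤ t) : tent c t = 0 := by
  unfold tent
  apply max_eq_left
  have : c / 2 ≤ |t - c| := by
    rcases h with h | h
    · rw [abs_of_nonpos (by linarith)]; linarith
    · rw [abs_of_nonneg (by linarith)]; linarith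
  have : 1 ≤ |t - c| / (c / 2) := by rw [le_div_iff₀ (by positivity)]; linarith
  linarith

/-- If `G(c, w(c))` has a limit as `c → 0+` for every continuous `w`, then `G` has a joint limit. -/
lemma joint_limit {F : Type*} [NormedAddCommGroup F] {G : ℝ → E → F} {y₁ : E}
    (h : ∀ w : ℝ → E, Continuous w → ∃ l, Tendsto (fun c => G c (w c)) (𝓝[>] 0) (𝓝 l))
    [CompleteSpace E] :
    ∃ L : F, ∀ ε : ℝ, 0 < ε → ∃ δ : ℝ, 0 < δ ∧ ∀ (c : ℝ) (y : E), 0 < c → c < δ → ‖y - y₁‖ < δ →
      ‖G c y - L‖ < ε := by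
  obtain ⟨L, hL⟩ := h (fun _ => y₁) continuous_const
  refine ⟨L, ?_⟩
  by_contra hcon
  push Not at hcon
  obtain ⟨ε, hε, hcon⟩ := hcon
  choose! pc py hp0 hpδ hpy hpG using hcon
  -- recursive choice
  let nx : ℕ → ℝ → ℝ := fun n c => min (c / 4) ((1/2) ^ (n + 1))
  let sd : ℕ → ℝ := fun n => Nat.rec 1 (fun n d => nx n (pc d)) n
  have hsd : ∀ n, sd (n+1) = min (pc (sd n) / 4) ((1/2) ^ (n + 1)) := fun n => rfl
  have hsd0 : ∀ n, 0 < sd n := by
    intro n
    induction n with
    | zero => exact one_pos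
    | succ n ih =>
      rw [hsd]
      exact lt_min (by have := hp0 _ ih; positivity) (by positivity)
  set c : ℕ → ℝ := fun n => pc (sd n) with hc
  set y : ℕ → E := fun n => py (sd n) with hy
  have hc0 : ∀ n, 0 < c n := fun n => hp0 _ (hsd0 n)
  have hcs : ∀ n, c (n+1) < c n / 4 := fun n =>
    (hpδ _ (hsd0 (n+1))).trans_le (by rw [hsd]; exact min_le_left _ _)
  have hsdp : ∀ n, sd n ≤ (1/2)^n := by
    intro n
    cases n with
    | zero => simp [sd]
    | succ n => rw [hsd]; exact min_le_right _ _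
  have hyb : ∀ n, ‖y n - y₁‖ ≤ (1/2)^n := fun n => (hpy _ (hsd0 n)).le.trans (hsdp n)
  have hcb : ∀ n, c n ≤ (1/2)^n := fun n => (hpδ _ (hsd0 n)).le.trans (hsdp n)
  have hG : ∀ n, ε ≤ ‖G (c n) (y n) - L‖ := fun n => hpG _ (hsd0 n)
  have hcanti : ∀ m n : ℕ, m < n → c n < c m / 4 := by
    intro m n hmn
    induction n, hmn using Nat.le_induction with
    | base => exact hcs m
    | succ n hmn ih => have := hcs n; have := hc0 n; have := hc0 m; linarith
  -- the path
  set w : ℝ → E := fun t => y₁ + ∑' n, tent (c n) t • (y n - y₁) with hw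
  have hwc : Continuous w := by
    apply continuous_const.add
    refine continuous_tsum (u := fun n => (1/2:ℝ)^n) (fun n => tent_cont.smul continuous_const)
      (summable_geometric_of_lt_one (by norm_num) (by norm_num)) ?_
    intro n t
    rw [norm_smul, Real.norm_of_nonneg (tent_nonneg _ _)]
    calc tent (c n) t * ‖y n - y₁‖ ≤ 1 * ‖y n - y₁‖ := by
          gcongr; exact tent_le_one (hc0 n) t
      _ ≤ _ := by rw [one_mul]; exact hyb n
  have hwn : ∀ n, w (c n) = y n := by
    intro n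
    rw [hw]
    simp only
    rw [tsum_eq_single n]
    · rw [tent_self]; simp
    · intro m hm
      rw [tent_zero (hc0 m), zero_smul]
      rcases lt_or_gt_of_ne hm with h | h
      · left; have := hcanti m n h; have := hc0 m; linarith
      · right; have := hcanti n m h; have := hc0 n; linarith
  have hws : ∀ n, w (3/2 * c n) = y₁ := by
    intro n
    rw [hw]
    simp only
    have : ∀ m, tent (c m) (3/2 * c n) • (y m - y₁) = 0 := by
      intro m
      rw [tent_zero (hc0 m), zero_smul]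
      rcases lt_trichotomy m n with h | h | h
      · left; have := hcanti m n h; have := hc0 m; linarith
      · right; rw [h]
      · right; have := hcanti n m h; have := hc0 n; have := hc0 m; linarith
    simp [this]
  obtain ⟨l, hl⟩ := h w hwc
  have hct : Tendsto c atTop (𝓝[>] 0) := by
    rw [tendsto_nhdsWithin_iff]
    refine ⟨?_, Eventually.of_forall fun n => hc0 n⟩
    exact squeeze_zero (fun n => (hc0 n).le) hcb
      (tendsto_pow_atTop_nhds_zero_of_lt_one (by norm_num) (by norm_num))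
  have hct2 : Tendsto (fun n => 3/2 * c n) atTop (𝓝[>] 0) := by
    rw [tendsto_nhdsWithin_iff] at hct ⊢
    refine ⟨by simpa using hct.1.const_mul (3/2 : ℝ), Eventually.of_forall fun n => ?_⟩
    have := hc0 n
    show 0 < 3/2 * c n
    positivity
  have h1 : Tendsto (fun n => G (c n) (y n)) atTop (𝓝 l) := by
    have := hl.comp hct
    refine this.congr fun n => ?_
    simp [Function.comp, hwn]
  have h2 : Tendsto (fun n => G (3/2 * c n) y₁) atTop (𝓝 l) := by
    have := hl.comp hct2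
    refine this.congr fun n => ?_
    simp only [Function.comp, hws]
  have h3 : Tendsto (fun n => G (3/2 * c n) y₁) atTop (𝓝 L) := hL.comp hct2
  have h4 : l = L := tendsto_nhds_unique h2 h3
  rw [h4] at h1
  have h5 : Tendsto (fun n => ‖G (c n) (y n) - L‖) atTop (𝓝 0) := by
    have := (h1.sub_const L).norm
    simpa using this
  have := ge_of_tendsto' h5 hG
  linarith

/-- The joint one-sided limit is the Jacobian. -/
lemma limit_eq {f : ℝ → E → E} {φ : ℝ → E → E} {f₁ : E → E} {y₁ : E}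
    (hφ : ∀ c : ℝ, 0 < c → c < 1 → Differentiable ℝ (φ c))
    (hlim : ∀ y : E, Tendsto (fun c => φ c y) (𝓝[>] 0) (𝓝 (f₁ y)))
    {L : E →L[ℝ] E}
    (hL : ∀ ε : ℝ, 0 < ε → ∃ δ : ℝ, 0 < δ ∧ ∀ (c : ℝ) (y : E), 0 < c → c < δ → ‖y - y₁‖ < δ →
      ‖fderiv ℝ (φ c) y - L‖ < ε) : fderiv ℝ f₁ y₁ = L := by
  apply HasFDerivAt.fderiv
  rw [hasFDerivAt_iff_isLittleO, Asymptotics.isLittleO_iff]
  intro ε hε
  obtain ⟨δ, hδ, hδ'⟩ := hL ε hε
  filter_upwards [Metric.ball_mem_nhds y₁ hδ] with y hy
  have hball : Convex ℝ (Metric.ball y₁ δ) := convex_ball y₁ δ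
  have key : ∀ c : ℝ, 0 < c → c < min 1 δ → ‖φ c y - φ c y₁ - L (y - y₁)‖ ≤ ε * ‖y - y₁‖ := by
    intro c hc hc1
    have hdiff := hφ c hc (hc1.trans_le (min_le_left _ _))
    have := hball.norm_image_sub_le_of_norm_hasFDerivWithin_le (f := fun z => φ c z - L z)
      (f' := fun z => fderiv ℝ (φ c) z - L) (C := ε)
      (fun z _ => ((hdiff z).hasFDerivAt.sub L.hasFDerivAt).hasFDerivWithinAt)
      (fun z hz => (hδ' c z hc (hc1.trans_le (min_le_right _ _))
        (by rwa [Metric.mem_ball, dist_eq_norm] at hz)).le)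
      (Metric.mem_ball_self hδ) hy
    have e : φ c y - φ c y₁ - L (y - y₁) = (φ c y - L y) - (φ c y₁ - L y₁) := by
      rw [map_sub]; abel
    rw [e]
    exact this
  have hlim2 : Tendsto (fun c => ‖φ c y - φ c y₁ - L (y - y₁)‖) (𝓝[>] 0)
      (𝓝 ‖f₁ y - f₁ y₁ - L (y - y₁)‖) := (((hlim y).sub (hlim y₁)).sub_const _).norm
  refine le_of_tendsto hlim2 ?_
  have : Ioo (0:ℝ) (min 1 δ) ∈ 𝓝[>] (0:ℝ) := Ioo_mem_nhdsGT (by positivity)
  filter_upwards [this] with c hc
  exact key c hc.1 hc.2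

/-- Joint continuity of the Jacobian. -/
lemma joint_continuity [CompleteSpace E] {f : ℝ → E → E} (h1 : G1 f)
    (h3 : ∀ ω : ℝ → E, PiecewiseContinuous ω →
      PiecewiseContinuous (fun t => fderiv ℝ (f t) (ω t))) :
    ContinuousOn (fun p : ℝ × E => fderiv ℝ (f p.1) p.2) (Ici 0 ×ˢ univ) := by
  rintro ⟨t₁, y₁⟩ ⟨ht₁, -⟩
  have ht₁' : 0 ≤ t₁ := ht₁
  -- one-sided statement
  have side : ∀ σ : ℝ, σ * σ = 1 → (∃ b : ℝ, 0 < b ∧ ∀ c : ℝ, 0 < c → c < b → 0 ≤ t₁ + σ * c) →
      (∀ w : ℝ → E, Continuous w →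
        ∃ l, Tendsto (fun c => fderiv ℝ (f (t₁ + σ * c)) (w c)) (𝓝[>] 0) (𝓝 l)) →
      ∀ ε : ℝ, 0 < ε → ∃ δ : ℝ, 0 < δ ∧ ∀ (c : ℝ) (y : E), 0 < c → c < δ → ‖y - y₁‖ < δ →
        ‖fderiv ℝ (f (t₁ + σ * c)) y - fderiv ℝ (f t₁) y₁‖ < ε := by
    intro σ hσ ⟨b, hb0, hb⟩ hw
    obtain ⟨L, hL⟩ := joint_limit (G := fun c y => fderiv ℝ (f (t₁ + σ * c)) y) (y₁ := y₁) hw
    have hLe : fderiv ℝ (f t₁) y₁ = L := by
      -- rescale so that the parameter runs through (0, 1)
      refine limit_eq (f := f) (φ := fun c => f (t₁ + σ * (min b 1 * c))) ?_ ?_ ?_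
      · intro c hc hc1
        have hc3 : 0 < min b 1 := lt_min hb0 one_pos
        have hc2 : 0 ≤ t₁ + σ * (min b 1 * c) := hb _ (by positivity) (by
          have : min b 1 * c < min b 1 * 1 := by gcongr
          have := min_le_left b 1
          linarith)
        exact (h1.contDiff _ hc2).differentiable (by norm_num)
      · intro y
        have hcw := h1.continuousOn (t₁, y) ⟨ht₁, mem_univ _⟩
        have htt : Tendsto (fun c : ℝ => ((t₁ + σ * (min b 1 * c), y) : ℝ × E)) (𝓝[>] 0)
            (𝓝[Ici 0 ×ˢ univ] (t₁, y)) := by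
          rw [tendsto_nhdsWithin_iff]
          constructor
          · have : Continuous (fun c : ℝ => ((t₁ + σ * (min b 1 * c), y) : ℝ × E)) := by fun_prop
            have h4 := this.tendsto 0
            simp only [mul_zero, add_zero] at h4
            exact h4.mono_left nhdsWithin_le_nhds
          · have hc3 : 0 < min b 1 := lt_min hb0 one_pos
            have : Ioo (0:ℝ) 1 ∈ 𝓝[>] (0:ℝ) := Ioo_mem_nhdsGT one_pos
            filter_upwards [this] with c hc
            refine ⟨hb _ (mul_pos hc3 hc.1) ?_, mem_univ _⟩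
            have : min b 1 * c < min b 1 * 1 := by gcongr; exact hc.2
            have := min_le_left b 1
            linarith
        exact hcw.tendsto.comp htt
      · intro ε hε
        obtain ⟨δ, hδ, hδ'⟩ := hL ε hε
        refine ⟨δ, hδ, fun c y hc hcδ hy => ?_⟩
        have hc3 : 0 < min b 1 := lt_min hb0 one_pos
        have hc4 : min b 1 * c ≤ c := by
          have := min_le_right b 1
          nlinarith
        exact hδ' _ y (by positivity) (hc4.trans_lt hcδ) hy
    rw [hLe]
    exact hL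
  rw [ContinuousWithinAt, Metric.tendsto_nhdsWithin_nhds]
  intro ε hε
  -- the right side
  obtain ⟨δ₁, hδ₁, h1'⟩ := side 1 (by norm_num) ⟨1, one_pos, fun c hc _ => by linarith⟩ (by
    intro w hw
    obtain ⟨l, hl⟩ := (h3 (fun t => w (t - t₁)) (pc_of_continuous (by fun_prop))).2.1 t₁ ht₁'
    refine ⟨l, ?_⟩
    have htt : Tendsto (fun c : ℝ => t₁ + 1 * c) (𝓝[>] 0) (𝓝[>] t₁) := by
      rw [tendsto_nhdsWithin_iff]
      constructor
      · have : Continuous (fun c : ℝ => t₁ + 1 * c) := by fun_prop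
        have h4 := this.tendsto 0
        simp only [mul_zero, add_zero] at h4
        exact h4.mono_left nhdsWithin_le_nhds
      · filter_upwards [self_mem_nhdsWithin] with c hc
        have : 0 < c := hc
        show t₁ < t₁ + 1 * c
        linarith
    refine (hl.comp htt).congr fun c => ?_
    simp [Function.comp]) ε hε
  -- the middle
  have hmid : ContinuousAt (fun y => fderiv ℝ (f t₁) y) y₁ :=
    ((h1.contDiff t₁ ht₁').continuous_fderiv (by norm_num)).continuousAt
  rw [Metric.continuousAt_iff] at hmid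
  obtain ⟨δ₂, hδ₂, h2'⟩ := hmid ε hε
  rcases eq_or_lt_of_le ht₁' with h0 | h0
  · refine ⟨min δ₁ δ₂, lt_min hδ₁ hδ₂, ?_⟩
    rintro ⟨t, y⟩ ⟨ht, -⟩ hd
    rw [Prod.dist_eq, max_lt_iff, lt_min_iff, lt_min_iff] at hd
    obtain ⟨⟨hd1, -⟩, hd3, hd4⟩ := hd
    have ht' : 0 ≤ t := ht
    rcases eq_or_lt_of_le ht' with h | h
    · have : t = t₁ := by rw [← h, ← h0]
      subst this
      exact h2' hd4
    · have h5 := h1' (t - t₁) y (by rw [← h0]; linarith) (by
        rw [Real.dist_eq] at hd1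
        exact (le_abs_self _).trans_lt hd1) (by rwa [← dist_eq_norm])
      rw [dist_eq_norm]
      simpa using h5
  · -- the left side
    obtain ⟨δ₃, hδ₃, h3'⟩ := side (-1) (by norm_num) ⟨t₁, h0, fun c _ hc => by linarith⟩ (by
      intro w hw
      obtain ⟨l, hl⟩ := (h3 (fun t => w (t₁ - t)) (pc_of_continuous (by fun_prop))).2.2 t₁ h0
      refine ⟨l, ?_⟩
      have htt : Tendsto (fun c : ℝ => t₁ + (-1) * c) (𝓝[>] 0) (𝓝[<] t₁) := by
        rw [tendsto_nhdsWithin_iff]
        constructor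
        · have : Continuous (fun c : ℝ => t₁ + (-1) * c) := by fun_prop
          have h4 := this.tendsto 0
          simp only [mul_zero, add_zero] at h4
          exact h4.mono_left nhdsWithin_le_nhds
        · filter_upwards [self_mem_nhdsWithin] with c hc
          have : 0 < c := hc
          show t₁ + (-1) * c < t₁
          linarith
      refine (hl.comp htt).congr fun c => ?_
      simp [Function.comp]) ε hε
    refine ⟨min (min δ₁ δ₂) δ₃, lt_min (lt_min hδ₁ hδ₂) hδ₃, ?_⟩
    rintro ⟨t, y⟩ ⟨ht, -⟩ hd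
    rw [Prod.dist_eq, max_lt_iff, lt_min_iff, lt_min_iff, lt_min_iff, lt_min_iff] at hd
    obtain ⟨⟨⟨hd1, -⟩, hd5⟩, ⟨hd3, hd4⟩, hd6⟩ := hd
    rw [Real.dist_eq] at hd1 hd5
    rcases lt_trichotomy t t₁ with h | h | h
    · have h5 := h3' (t₁ - t) y (by linarith) (by
        rw [abs_sub_comm] at hd5
        exact (le_abs_self _).trans_lt hd5) (by rwa [← dist_eq_norm])
      rw [dist_eq_norm]
      have e : t₁ + (-1) * (t₁ - t) = t := by ring
      rw [e] at h5
      exact h5
    · subst h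
      exact h2' hd4
    · have h5 := h1' (t - t₁) y (by linarith) ((le_abs_self _).trans_lt hd1)
        (by rwa [← dist_eq_norm])
      rw [dist_eq_norm]
      simpa using h5

end Pool.Agent.H373R3.MY
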