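import Pool.Agent.H373R3.MY.Defs

/-!
# Piecewise continuous functions
-/

set_option autoImplicit false

open Set Filter Topology MeasureTheory

namespace Pool.Agent.H373R3.MY

section
variable {F : Type*} [TopologicalSpace F]

lemma nhdsGT_ev {t : ℝ} {p : ℝ → Prop} (h : ∀ᶠ s in 𝓝[>] t, p s) :
    ∀ᶠ s in 𝓝[>] t, ∀ᶠ u in 𝓝 s, p u := by
  have h1 := eventually_eventually_nhdsWithin.2 h
  filter_upwards [h1, self_mem_nhdsWithin] with s hs hst
  rwa [isOpen_Ioi.nhdsWithin_eq hst] at hs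

lemma nhdsLT_ev {t : ℝ} {p : ℝ → Prop} (h : ∀ᶠ s in 𝓝[<] t, p s) :
    ∀ᶠ s in 𝓝[<] t, ∀ᶠ u in 𝓝 s, p u := by
  have h1 := eventually_eventually_nhdsWithin.2 h
  filter_upwards [h1, self_mem_nhdsWithin] with s hs hst
  rwa [isOpen_Iio.nhdsWithin_eq hst] at hs

/-- A local criterion. -/
lemma pc_of_local {g : ℝ → F}
    (hr : ∀ t : ℝ, 0 ≤ t → ∃ G : ℝ → F, (∀ᶠ s in 𝓝[>] t, ContinuousAt G s ∧ g s = G s) ∧
      ∃ l, Tendsto G (𝓝[>] t) (𝓝 l))
    (hl : ∀ t : ℝ, 0 < t → ∃ G : ℝ → F, (∀ᶠ s in 𝓝[<] t, ContinuousAt G s ∧ g s = G s) ∧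
      ∃ l, Tendsto G (𝓝[<] t) (𝓝 l)) : PiecewiseContinuous g := by
  have hr1 : ∀ t : ℝ, 0 ≤ t → ∀ᶠ s in 𝓝[>] t, ContinuousAt g s := by
    intro t ht
    obtain ⟨G, hG, -⟩ := hr t ht
    filter_upwards [hG, nhdsGT_ev hG] with s hs hs2
    have : g =ᶠ[𝓝 s] G := hs2.mono fun u hu => hu.2
    exact hs.1.congr this.symm
  have hl1 : ∀ t : ℝ, 0 < t → ∀ᶠ s in 𝓝[<] t, ContinuousAt g s := by
    intro t ht
    obtain ⟨G, hG, -⟩ := hl t ht
    filter_upwards [hG, nhdsLT_ev hG] with s hs hs2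
    have : g =ᶠ[𝓝 s] G := hs2.mono fun u hu => hu.2
    exact hs.1.congr this.symm
  refine ⟨⟨{t | ¬ ContinuousWithinAt g (Ici 0) t}, ?_, ?_⟩, ?_, ?_⟩
  · intro b
    have hc : IsCompact (Icc (0:ℝ) b) := isCompact_Icc
    refine hc.induction_on (p := fun s => ({t | ¬ ContinuousWithinAt g (Ici 0) t} ∩ s).Finite)
      (by simp) ?_ ?_ ?_
    · intro s t hst ht
      exact ht.subset (inter_subset_inter_right _ hst)
    · intro s t hs ht
      rw [inter_union_distrib_left]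
      exact hs.union ht
    · intro x hx
      have h1 := hr1 x hx.1
      rw [eventually_nhdsWithin_iff] at h1
      rcases eq_or_lt_of_le hx.1 with h0 | h0
      · refine ⟨{u | u ∈ Ioi x → ContinuousAt g u} ∩ Icc 0 b, ?_, ?_⟩
        · exact inter_mem (mem_nhdsWithin_of_mem_nhds h1) self_mem_nhdsWithin
        · refine (Set.finite_singleton x).subset ?_
          rintro u ⟨hu1, hu2, hu3⟩
          by_contra hne
          have : x < u := lt_of_le_of_ne (h0 ▸ hu3.1) (fun h => hne (by simp [h]))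
          exact hu1 ((hu2 this).continuousWithinAt)
      · have h2 := hl1 x h0
        rw [eventually_nhdsWithin_iff] at h2
        refine ⟨{u | u ∈ Ioi x → ContinuousAt g u} ∩ {u | u ∈ Iio x → ContinuousAt g u}, ?_, ?_⟩
        · exact inter_mem (mem_nhdsWithin_of_mem_nhds h1) (mem_nhdsWithin_of_mem_nhds h2)
        · refine (Set.finite_singleton x).subset ?_
          rintro u ⟨hu1, hu2, hu3⟩
          by_contra hne
          rcases lt_or_gt_of_ne (fun h : x = u => hne (by simp [h])) with h | h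
          · exact hu1 ((hu2 h).continuousWithinAt)
          · exact hu1 ((hu3 h).continuousWithinAt)
  · intro t _ h
    simpa using h
  · intro t ht
    obtain ⟨G, hG, l, hl⟩ := hr t ht
    exact ⟨l, hl.congr' (hG.mono fun u hu => hu.2.symm)⟩
  · intro t ht
    obtain ⟨G, hG, l, hl'⟩ := hl t ht
    exact ⟨l, hl'.congr' (hG.mono fun u hu => hu.2.symm)⟩

lemma pc_evR {g : ℝ → F} (hg : PiecewiseContinuous g) {t : ℝ} (ht : 0 ≤ t) :
    ∀ᶠ s in 𝓝[>] t, ContinuousAt g s := by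
  obtain ⟨⟨D, hD, hc⟩, -, -⟩ := hg
  have hfin := hD (t + 1)
  have h1 : ∀ᶠ s in 𝓝[>] t, s ∉ (D ∩ Icc 0 (t+1)) \ {t} := by
    have : ((D ∩ Icc 0 (t+1)) \ {t})ᶜ ∈ 𝓝 t := by
      apply IsOpen.mem_nhds
      · exact (hfin.subset sdiff_subset).isClosed.isOpen_compl
      · simp
    exact mem_nhdsWithin_of_mem_nhds this
  have h2 : ∀ᶠ s in 𝓝[>] t, s < t + 1 := by
    apply mem_nhdsWithin_of_mem_nhds
    exact Iio_mem_nhds (by linarith)
  filter_upwards [h1, h2, self_mem_nhdsWithin] with s hs1 hs2 hs3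
  have hs3' : t < s := hs3
  have h0 : 0 < s := lt_of_le_of_lt ht hs3'
  have : s ∉ D := by
    intro hsD
    apply hs1
    refine ⟨⟨hsD, h0.le, hs2.le⟩, ?_⟩
    simp [hs3'.ne']
  exact (hc s h0.le this).continuousAt (Ici_mem_nhds h0)

lemma pc_evL {g : ℝ → F} (hg : PiecewiseContinuous g) {t : ℝ} (ht : 0 < t) :
    ∀ᶠ s in 𝓝[<] t, ContinuousAt g s := by
  obtain ⟨⟨D, hD, hc⟩, -, -⟩ := hg
  have hfin := hD (t + 1)
  have h1 : ∀ᶠ s in 𝓝[<] t, s ∉ (D ∩ Icc 0 (t+1)) \ {t} := by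
    have : ((D ∩ Icc 0 (t+1)) \ {t})ᶜ ∈ 𝓝 t := by
      apply IsOpen.mem_nhds
      · exact (hfin.subset sdiff_subset).isClosed.isOpen_compl
      · simp
    exact mem_nhdsWithin_of_mem_nhds this
  have h2 : ∀ᶠ s in 𝓝[<] t, 0 < s := by
    apply mem_nhdsWithin_of_mem_nhds
    exact Ioi_mem_nhds ht
  filter_upwards [h1, h2, self_mem_nhdsWithin] with s hs1 h0 hs3
  have hs3' : s < t := hs3
  have : s ∉ D := by
    intro hsD
    apply hs1
    refine ⟨⟨hsD, h0.le, by linarith⟩, ?_⟩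
    simp [hs3'.ne]
  exact (hc s h0.le this).continuousAt (Ici_mem_nhds h0)

/-- Gluing at `τ`. -/
lemma pc_ite {g₁ g₂ : ℝ → F} (h₁ : PiecewiseContinuous g₁) (h₂ : PiecewiseContinuous g₂) (τ : ℝ) :
    PiecewiseContinuous (fun t => if t < τ then g₁ t else g₂ t) := by
  apply pc_of_local
  · intro t ht
    rcases lt_or_ge t τ with h | h
    · refine ⟨g₁, ?_, h₁.2.1 t ht⟩
      have : ∀ᶠ s in 𝓝[>] t, s < τ := mem_nhdsWithin_of_mem_nhds (Iio_mem_nhds h)
      filter_upwards [pc_evR h₁ ht, this] with s hs1 hs2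
      exact ⟨hs1, by simp [hs2]⟩
    · refine ⟨g₂, ?_, h₂.2.1 t ht⟩
      filter_upwards [pc_evR h₂ ht, self_mem_nhdsWithin] with s hs1 hs2
      have : ¬ s < τ := not_lt.2 (h.trans (le_of_lt hs2))
      exact ⟨hs1, by simp [this]⟩
  · intro t ht
    rcases le_or_gt t τ with h | h
    · refine ⟨g₁, ?_, h₁.2.2 t ht⟩
      filter_upwards [pc_evL h₁ ht, self_mem_nhdsWithin] with s hs1 hs2
      have : s < τ := lt_of_lt_of_le hs2 h
      exact ⟨hs1, by simp [this]⟩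
    · refine ⟨g₂, ?_, h₂.2.2 t ht⟩
      have : ∀ᶠ s in 𝓝[<] t, τ < s := mem_nhdsWithin_of_mem_nhds (Ioi_mem_nhds h)
      filter_upwards [pc_evL h₂ ht, this] with s hs1 hs2
      have : ¬ s < τ := not_lt.2 hs2.le
      exact ⟨hs1, by simp [this]⟩

/-- Locally equal to piecewise continuous functions. -/
lemma pc_of_eqOn {g : ℝ → F}
    (h : ∀ b : ℝ, ∃ g' : ℝ → F, PiecewiseContinuous g' ∧ ∀ t, t < b → g t = g' t) :
    PiecewiseContinuous g := by
  apply pc_of_local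
  · intro t ht
    obtain ⟨g', hg', he⟩ := h (t + 1)
    refine ⟨g', ?_, hg'.2.1 t ht⟩
    have : ∀ᶠ s in 𝓝[>] t, s < t + 1 := mem_nhdsWithin_of_mem_nhds (Iio_mem_nhds (by linarith))
    filter_upwards [pc_evR hg' ht, this] with s hs1 hs2
    exact ⟨hs1, he s hs2⟩
  · intro t ht
    obtain ⟨g', hg', he⟩ := h (t + 1)
    refine ⟨g', ?_, hg'.2.2 t ht⟩
    filter_upwards [pc_evL hg' ht, self_mem_nhdsWithin] with s hs1 hs2
    exact ⟨hs1, he s (by have : s < t := hs2; linarith)⟩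

lemma pc_of_continuous {g : ℝ → F} (hg : Continuous g) : PiecewiseContinuous g := by
  apply pc_of_local
  · intro t _
    exact ⟨g, Eventually.of_forall fun s => ⟨hg.continuousAt, rfl⟩, g t,
      (hg.tendsto t).mono_left nhdsWithin_le_nhds⟩
  · intro t _
    exact ⟨g, Eventually.of_forall fun s => ⟨hg.continuousAt, rfl⟩, g t,
      (hg.tendsto t).mono_left nhdsWithin_le_nhds⟩

end

section
variable {F : Type*} [NormedAddCommGroup F]

lemma pc_bdd {g : ℝ → F} (hg : PiecewiseContinuous g) (b : ℝ) :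
    ∃ C : ℝ, ∀ t ∈ Icc 0 b, ‖g t‖ ≤ C := by
  have hc : IsCompact (Icc (0:ℝ) b) := isCompact_Icc
  refine hc.induction_on (p := fun s => ∃ C : ℝ, ∀ t ∈ s, ‖g t‖ ≤ C) ⟨0, by simp⟩ ?_ ?_ ?_
  · rintro s t hst ⟨C, hC⟩
    exact ⟨C, fun u hu => hC u (hst hu)⟩
  · rintro s t ⟨C, hC⟩ ⟨C', hC'⟩
    refine ⟨max C C', fun u hu => ?_⟩
    rcases hu with hu | hu
    · exact (hC u hu).trans (le_max_left _ _)
    · exact (hC' u hu).trans (le_max_right _ _)
  · intro x hx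
    obtain ⟨l, hl⟩ := hg.2.1 x hx.1
    have h1 : ∀ᶠ s in 𝓝[>] x, ‖g s‖ ≤ ‖l‖ + 1 := by
      filter_upwards [hl.norm.eventually_lt_const (show ‖l‖ < ‖l‖ + 1 by linarith)] with s hs
      exact hs.le
    rw [eventually_nhdsWithin_iff] at h1
    rcases eq_or_lt_of_le hx.1 with h0 | h0
    · refine ⟨{u | u ∈ Ioi x → ‖g u‖ ≤ ‖l‖ + 1} ∩ Icc 0 b, ?_, max (‖l‖ + 1) ‖g x‖, ?_⟩
      · exact inter_mem (mem_nhdsWithin_of_mem_nhds h1) self_mem_nhdsWithin
      · rintro u ⟨hu2, hu3⟩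
        rcases eq_or_lt_of_le (h0 ▸ hu3.1 : x ≤ u) with h | h
        · rw [← h]; exact le_max_right _ _
        · exact (hu2 h).trans (le_max_left _ _)
    · obtain ⟨l', hl'⟩ := hg.2.2 x h0
      have h2 : ∀ᶠ s in 𝓝[<] x, ‖g s‖ ≤ ‖l'‖ + 1 := by
        filter_upwards [hl'.norm.eventually_lt_const (show ‖l'‖ < ‖l'‖ + 1 by linarith)] with s hs
        exact hs.le
      rw [eventually_nhdsWithin_iff] at h2
      refine ⟨{u | u ∈ Ioi x → ‖g u‖ ≤ ‖l‖ + 1} ∩ {u | u ∈ Iio x → ‖g u‖ ≤ ‖l'‖ + 1}, ?_,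
        max (max (‖l‖ + 1) (‖l'‖ + 1)) ‖g x‖, ?_⟩
      · exact inter_mem (mem_nhdsWithin_of_mem_nhds h1) (mem_nhdsWithin_of_mem_nhds h2)
      · rintro u ⟨hu2, hu3⟩
        rcases lt_trichotomy u x with h | h | h
        · exact (hu3 h).trans ((le_max_right _ _).trans (le_max_left _ _))
        · rw [h]; exact le_max_right _ _
        · exact (hu2 h).trans ((le_max_left _ _).trans (le_max_left _ _))

lemma pc_aesm {g : ℝ → F} (hg : PiecewiseContinuous g) :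
    AEStronglyMeasurable g (volume.restrict (Ici (0:ℝ))) := by
  obtain ⟨⟨D, hD, hc⟩, -, -⟩ := hg
  have hcount : (D ∩ Ici 0).Countable := by
    have : D ∩ Ici (0:ℝ) = ⋃ n : ℕ, D ∩ Icc 0 (n:ℝ) := by
      ext x
      simp only [mem_inter_iff, mem_Ici, mem_iUnion, mem_Icc]
      constructor
      · rintro ⟨h1, h2⟩
        obtain ⟨n, hn⟩ := exists_nat_ge x
        exact ⟨n, h1, h2, hn⟩
      · rintro ⟨n, h1, h2, -⟩
        exact ⟨h1, h2⟩
    rw [this]
    exact countable_iUnion fun n => (hD n).countable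
  have hS : MeasurableSet (Ici (0:ℝ) \ (D ∩ Ici 0)) := measurableSet_Ici.diff hcount.measurableSet
  have hcont : ContinuousOn g (Ici (0:ℝ) \ (D ∩ Ici 0)) := by
    rintro t ⟨ht1, ht2⟩
    have : t ∉ D := fun h => ht2 ⟨h, ht1⟩
    exact (hc t ht1 this).mono sdiff_subset
  have h1 := hcont.aestronglyMeasurable (μ := volume) hS
  have h2 : (Ici (0:ℝ) \ (D ∩ Ici 0) : Set ℝ) =ᵐ[volume] Ici (0:ℝ) := by
    apply sdiff_null_ae_eq_self
    exact hcount.measure_zero _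
  rwa [Measure.restrict_congr_set h2] at h1

end

end Pool.Agent.H373R3.MY
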