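import Pool.Agent.H373R3.MY.Chat

/-!
# A uniform bound over all bounded controls (gluing argument)
-/

set_option autoImplicit false

open Set Filter Topology MeasureTheory

namespace Pool.Agent.H373R3.MY

variable {E : Type*} [NormedAddCommGroup E] [NormedSpace ℝ E]

/-- What is used of (G3). -/
def Dec (J : ℝ → E → E →L[ℝ] E) : Prop :=
  ∀ ω : ℝ → E, PiecewiseContinuous ω → PiecewiseContinuous (fun t => J t (ω t)) ∧
    ∃ T, IsEvolutionOperator (fun t => J t (ω t)) T ∧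
      ∀ s, 0 ≤ s → Tendsto (fun t => T t s) atTop (𝓝 0)

/-- Controls bounded by `η`. -/
def Ctl (η : ℝ) (ω : ℝ → E) : Prop := PiecewiseContinuous ω ∧ ∀ t, ‖ω t‖ ≤ η

lemma ctl_ite {η : ℝ} {ω₁ ω₂ : ℝ → E} (h₁ : Ctl η ω₁) (h₂ : Ctl η ω₂) (τ : ℝ) :
    Ctl η (fun t => if t < τ then ω₁ t else ω₂ t) := by
  refine ⟨pc_ite h₁.1 h₂.1 τ, fun t => ?_⟩
  beta_reduce
  split_ifs
  · exact h₁.2 t
  · exact h₂.2 t

lemma step [CompleteSpace E] {J : ℝ → E → E →L[ℝ] E} (hJ : Dec J)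
    (hb : ∀ b η : ℝ, ∃ C, 0 ≤ C ∧ ∀ t ∈ Icc 0 b, ∀ y : E, ‖y‖ ≤ η → ‖J t y‖ ≤ C)
    {t₀ η : ℝ} (ht₀ : 0 ≤ t₀)
    (hcon : ∀ M : ℝ, ∃ ω, Ctl η ω ∧ ∃ T, IsEvolutionOperator (fun t => J t (ω t)) T ∧
      ∃ t, t₀ ≤ t ∧ M < ‖T t t₀‖)
    {ω : ℝ → E} (hω : Ctl η ω) {τ : ℝ} (hτ : t₀ ≤ τ) (M : ℝ) :
    ∃ ω' : ℝ → E, Ctl η ω' ∧ ∃ τ' : ℝ, τ + 1 ≤ τ' ∧ (∀ t, t < τ → ω' t = ω t) ∧
      ∀ T', IsEvolutionOperator (fun t => J t (ω' t)) T' → M < ‖T' τ' t₀‖ := by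
  have hτ0 : 0 ≤ τ := ht₀.trans hτ
  obtain ⟨C, hC0, hC⟩ := hb (τ + 1) η
  set B := Real.exp (C * (τ + 1)) with hB
  have hB1 : 1 ≤ B := Real.one_le_exp (mul_nonneg hC0 (by linarith))
  obtain ⟨ω'', hω'', T'', hT'', τ', hτ', hM⟩ := hcon (|M| * B * B + B)
  have hA'' := (hJ ω'' hω''.1).1
  have hbd : ∀ (ω : ℝ → E), Ctl η ω → ∀ T, IsEvolutionOperator (fun t => J t (ω t)) T →
      ∀ s t : ℝ, 0 ≤ s → s ≤ τ + 1 → 0 ≤ t → t ≤ τ + 1 → ‖T t s‖ ≤ B := by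
    intro ω hω T hT s t hs hs' ht ht'
    have := hT.norm_le (a := 0) (b := τ + 1) le_rfl hC0 (fun r hr => hC r hr _ (hω.2 r))
      (s := s) (t := t) ⟨hs, hs'⟩ ⟨ht, ht'⟩
    refine this.trans ?_
    apply Real.exp_le_exp.2
    apply mul_le_mul_of_nonneg_left _ hC0
    rw [abs_le]
    constructor <;> linarith
  have hτ'1 : τ + 1 < τ' := by
    by_contra hcon2
    push Not at hcon2
    have h1 := hbd ω'' hω'' T'' hT'' t₀ τ' ht₀ (by linarith) (ht₀.trans hτ') hcon2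
    have : 0 ≤ |M| * B * B := by positivity
    linarith
  have hτ'0 : 0 ≤ τ' := by linarith
  refine ⟨fun t => if t < τ then ω t else ω'' t, ctl_ite hω hω'' τ, τ', hτ'1.le, ?_, ?_⟩
  · intro t ht
    simp [ht]
  · intro T' hT'
    have hA' := (hJ _ (ctl_ite hω hω'' τ).1).1
    -- on `[τ, τ']` the two agree
    have e1 : T' τ' τ = T'' τ' τ := by
      apply evo_congr hA' hT' hT'' hτ0 (b := τ') _ ⟨le_rfl, by linarith⟩ ⟨by linarith, le_rfl⟩
      intro t ht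
      have : ¬ t < τ := not_lt.2 ht.1.le
      simp [this]
    have e2 : (T'' τ' τ).comp (T'' τ t₀) = T'' τ' t₀ := hT''.cocycle hA'' ht₀ hτ0 hτ'0
    have e3 : (T' τ' t₀).comp (T' t₀ τ) = T' τ' τ := hT'.cocycle hA' hτ0 ht₀ hτ'0
    have h1 : ‖T'' τ t₀‖ ≤ B := hbd ω'' hω'' T'' hT'' t₀ τ ht₀ (by linarith) hτ0 (by linarith)
    have h2 : ‖T' t₀ τ‖ ≤ B := hbd _ (ctl_ite hω hω'' τ) T' hT' τ t₀ hτ0 (by linarith) ht₀
      (by linarith)
    have h3 : ‖T'' τ' t₀‖ ≤ ‖T' τ' t₀‖ * B * B := by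
      rw [← e2, ← e1, ← e3]
      calc _ ≤ ‖(T' τ' t₀).comp (T' t₀ τ)‖ * ‖T'' τ t₀‖ := ContinuousLinearMap.opNorm_comp_le _ _
        _ ≤ (‖T' τ' t₀‖ * ‖T' t₀ τ‖) * ‖T'' τ t₀‖ := by
            gcongr
            exact ContinuousLinearMap.opNorm_comp_le _ _
        _ ≤ _ := by gcongr
    by_contra hcon2
    push Not at hcon2
    have h4 : ‖T' τ' t₀‖ * B * B ≤ |M| * B * B := by
      have := hcon2.trans (le_abs_self M)
      gcongr
    linarith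

/-- The uniform bound. -/
lemma unif_bound [CompleteSpace E] {J : ℝ → E → E →L[ℝ] E} (hJ : Dec J)
    (hb : ∀ b η : ℝ, ∃ C, 0 ≤ C ∧ ∀ t ∈ Icc 0 b, ∀ y : E, ‖y‖ ≤ η → ‖J t y‖ ≤ C)
    {t₀ η : ℝ} (ht₀ : 0 ≤ t₀) (hη : 0 ≤ η) :
    ∃ M : ℝ, ∀ ω, Ctl η ω → ∀ T, IsEvolutionOperator (fun t => J t (ω t)) T →
      ∀ t, t₀ ≤ t → ‖T t t₀‖ ≤ M := by
  by_contra hcon
  push Not at hcon
  have hcon' : ∀ M : ℝ, ∃ ω : ℝ → E, Ctl η ω ∧ ∃ T, IsEvolutionOperator (fun t => J t (ω t)) T ∧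
      ∃ t, t₀ ≤ t ∧ M < ‖T t t₀‖ := hcon
  -- states
  let S : Type _ := {p : (ℝ → E) × ℝ // Ctl η p.1 ∧ t₀ ≤ p.2}
  have hst : ∀ (p : S) (n : ℕ), ∃ q : S, p.1.2 + 1 ≤ q.1.2 ∧ (∀ t, t < p.1.2 → q.1.1 t = p.1.1 t) ∧
      ∀ T', IsEvolutionOperator (fun t => J t (q.1.1 t)) T' → (n:ℝ) < ‖T' q.1.2 t₀‖ := by
    intro p n
    obtain ⟨ω', hω', τ', hτ', h1, h2⟩ := step hJ hb ht₀ hcon' p.2.1 p.2.2 n
    exact ⟨⟨(ω', τ'), hω', by linarith [p.2.2]⟩, hτ', h1, h2⟩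
  choose nx hnx1 hnx2 hnx3 using hst
  let s0 : S := ⟨(fun _ => 0, t₀), ⟨pc_of_continuous continuous_const, fun t => by simpa using hη⟩,
    le_rfl⟩
  let sq : ℕ → S := fun n => Nat.rec s0 (fun n p => nx p n) n
  have hsq : ∀ n, sq (n+1) = nx (sq n) n := fun n => rfl
  have hτ1 : ∀ n, (sq n).1.2 + 1 ≤ (sq (n+1)).1.2 := fun n => by rw [hsq]; exact hnx1 _ _
  have hτmono : Monotone (fun n => (sq n).1.2) := monotone_nat_of_le_succ (fun n => by
    have := hτ1 n; linarith)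
  have hτn : ∀ n : ℕ, (n:ℝ) ≤ (sq n).1.2 := by
    intro n
    induction n with
    | zero => simpa [sq, s0] using ht₀
    | succ n ih => have := hτ1 n; push_cast; linarith
  have hag : ∀ m n : ℕ, m ≤ n → ∀ t, t < (sq m).1.2 → (sq n).1.1 t = (sq m).1.1 t := by
    intro m n hmn
    induction n, hmn using Nat.le_induction with
    | base => intro t _; rfl
    | succ n hmn ih =>
      intro t ht
      rw [hsq, hnx2 _ _ t (ht.trans_le (hτmono hmn)), ih t ht]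
  let om : ℝ → E := fun t => (sq (⌊t⌋₊ + 1)).1.1 t
  have hom : ∀ n t, t < (sq n).1.2 → om t = (sq n).1.1 t := by
    intro n t ht
    rcases le_total n (⌊t⌋₊ + 1) with h | h
    · exact hag _ _ h t ht
    · refine (hag _ _ h t ?_).symm
      refine lt_of_lt_of_le ?_ (hτn (⌊t⌋₊ + 1))
      push_cast
      exact Nat.lt_floor_add_one t
  have hpc : PiecewiseContinuous om := by
    apply pc_of_eqOn
    intro b
    obtain ⟨n, hn⟩ := exists_nat_gt b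
    exact ⟨(sq n).1.1, (sq n).2.1.1, fun t ht => hom n t (lt_of_lt_of_le (ht.trans hn) (hτn n))⟩
  obtain ⟨hAp, T, hT, hlim⟩ := hJ om hpc
  have hbig : ∀ n : ℕ, (n:ℝ) < ‖T (sq (n+1)).1.2 t₀‖ := by
    intro n
    have hω := (sq (n+1)).2.1
    obtain ⟨hAp', T', hT', -⟩ := hJ _ hω.1
    have hge : t₀ ≤ (sq (n+1)).1.2 := (sq (n+1)).2.2
    have e : T (sq (n+1)).1.2 t₀ = T' (sq (n+1)).1.2 t₀ := by
      apply evo_congr hAp hT hT' ht₀ (b := (sq (n+1)).1.2) _ ⟨le_rfl, hge⟩ ⟨hge, le_rfl⟩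
      intro t ht
      rw [hom (n+1) t ht.2]
    rw [e]
    have := hnx3 (sq n) n T' (by rw [← hsq]; exact hT')
    rwa [← hsq] at this
  have h0 := (hlim t₀ ht₀).norm
  rw [norm_zero] at h0
  have h1 : ∀ᶠ t in atTop, ‖T t t₀‖ < 1 := h0.eventually_lt_const one_pos
  obtain ⟨b, hb'⟩ := eventually_atTop.1 h1
  obtain ⟨n, hn⟩ := exists_nat_ge (max b 1)
  have h2 := hb' (sq (n+1)).1.2 (by
    have := hτn (n+1)
    push_cast at this
    linarith [le_max_left b 1])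
  have h3 := hbig n
  linarith [le_max_right b 1]

/-- The conclusion, with joint continuity of the Jacobian. -/
theorem main_of_jointly_continuous [CompleteSpace E] [FiniteDimensional ℝ E] {f : ℝ → E → E} (h1 : G1 f)
    (h2 : G2 f) (hJ : ContinuousOn (fun p : ℝ × E => fderiv ℝ (f p.1) p.2) (Ici 0 ×ˢ univ))
    (h3 : Dec (fun t => fderiv ℝ (f t))) : GloballyNonuniformlyAsymptoticallyStable f := by
  intro t₀ ht₀
  have hb : ∀ b η : ℝ, ∃ C, 0 ≤ C ∧ ∀ t ∈ Icc 0 b, ∀ y : E, ‖y‖ ≤ η → ‖fderiv ℝ (f t) y‖ ≤ C := by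
    intro b η
    have hK : IsCompact (Icc (0:ℝ) b ×ˢ Metric.closedBall (0:E) η) :=
      isCompact_Icc.prod (isCompact_closedBall 0 η)
    obtain ⟨C, hC⟩ := hK.exists_bound_of_continuousOn
      (hJ.mono (fun p hp => ⟨hp.1.1, mem_univ _⟩))
    refine ⟨max C 0, le_max_right _ _, fun t ht y hy => ?_⟩
    exact (hC (t, y) ⟨ht, by simpa using hy⟩).trans (le_max_left _ _)
  constructor
  · intro η hη
    obtain ⟨M, hM⟩ := unif_bound h3 hb ht₀ hη.le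
    have hM0 : 0 ≤ M := by
      obtain ⟨-, T, hT, -⟩ := h3 (fun _ => 0) (pc_of_continuous continuous_const)
      exact (norm_nonneg _).trans (hM _ ⟨pc_of_continuous continuous_const,
        fun t => by simpa using hη.le⟩ T hT t₀ le_rfl)
    set δ := η / (2 * (M + 1)) with hδ
    have hδ0 : 0 < δ := by positivity
    have hδ1 : 2 * M * δ < η := by
      have : 2 * (M + 1) * δ = η := by rw [hδ]; field_simp
      nlinarith
    have hδ2 : δ < η := by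
      have : 2 * (M + 1) * δ = η := by rw [hδ]; field_simp
      nlinarith
    refine ⟨δ, hδ0, ?_⟩
    intro x hx hx0 t ht
    by_contra hcon
    push Not at hcon
    -- first time at which the norm is at least `η`
    have hxc := sol_cont hx
    have hcl : IsClosed ({s | η ≤ ‖x s‖} ∩ Icc t₀ t) := by
      rw [inter_comm]
      have : ContinuousOn (fun s => ‖x s‖) (Icc t₀ t) := (hxc.mono (fun s hs => hs.1)).norm
      exact this.preimage_isClosed_of_isClosed isClosed_Icc isClosed_Ici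
    have hK : IsCompact ({s | η ≤ ‖x s‖} ∩ Icc t₀ t) :=
      isCompact_Icc.of_isClosed_subset hcl inter_subset_right
    obtain ⟨τ, ⟨hτ1, hτ2⟩, hτ3⟩ := hK.exists_isLeast ⟨t, hcon, ht, le_rfl⟩
    have hlt : ∀ s, t₀ ≤ s → s < τ → ‖x s‖ < η := by
      intro s hs hsτ
      by_contra hc
      push Not at hc
      have := hτ3 ⟨hc, hs, hsτ.le.trans hτ2.2⟩
      linarith
    have hτt : t₀ ≤ τ := hτ2.1
    have hτ0 : 0 ≤ τ := ht₀.trans hτt
    obtain ⟨ω, hωpc, hωx, hω0, hω⟩ := chatter h1 h2 hJ ht₀ hx hδ0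
    obtain ⟨hAp, T, hT, -⟩ := h3 ω hωpc
    have hw := hω T hAp hT τ hτt
    have hctl : Ctl η (fun s => if s < τ then ω s else (fun _ => (0:E)) s) := by
      refine ⟨pc_ite hωpc (pc_of_continuous continuous_const) τ, fun s => ?_⟩
      beta_reduce
      split_ifs with hs
      · rcases lt_or_ge s t₀ with h | h
        · rw [hω0 s h]; simpa using hη.le
        · exact (hωx s).trans (hlt s h hs).le
      · simpa using hη.le
    obtain ⟨hAp', T', hT', -⟩ := h3 _ hctl.1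
    have e1 : T τ t₀ = T' τ t₀ := by
      apply evo_congr hAp hT hT' ht₀ (b := τ) _ ⟨le_rfl, hτt⟩ ⟨hτt, le_rfl⟩
      intro s hs
      simp [hs.2]
    have hMτ : ‖T τ t₀‖ ≤ M := by rw [e1]; exact hM _ hctl T' hT' τ hτt
    have e2 : x τ = T τ t₀ (T t₀ τ (x τ)) := by
      have := hT.cocycle hAp hτ0 ht₀ hτ0
      rw [hT.self hτ0] at this
      have := congrArg (fun L : E →L[ℝ] E => L (x τ)) this
      simpa using this.symm
    have h4 : ‖T t₀ τ (x τ)‖ ≤ 2 * δ := by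
      have e : T t₀ τ (x τ) = (T t₀ τ (x τ) - x t₀) + x t₀ := by abel
      rw [e]
      refine (norm_add_le _ _).trans ?_
      linarith
    have h5 : ‖x τ‖ ≤ M * (2 * δ) := by
      rw [e2]
      exact ((T τ t₀).le_opNorm _).trans (by gcongr)
    have h6 : η ≤ ‖x τ‖ := hτ1
    nlinarith
  · intro x hx
    obtain ⟨ω, hωpc, -, -, hω⟩ := chatter h1 h2 hJ ht₀ hx one_pos
    obtain ⟨hAp, T, hT, hlim⟩ := h3 ω hωpc
    have h0 := (hlim t₀ ht₀).norm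
    rw [norm_zero] at h0
    have h4 : Tendsto (fun t => ‖T t t₀‖ * (‖x t₀‖ + 1)) atTop (𝓝 0) := by
      simpa using h0.mul_const (‖x t₀‖ + 1)
    apply squeeze_zero_norm' _ h4
    filter_upwards [eventually_ge_atTop t₀] with t ht
    have ht0 : 0 ≤ t := ht₀.trans ht
    have e2 : x t = T t t₀ (T t₀ t (x t)) := by
      have := hT.cocycle hAp ht0 ht₀ ht0
      rw [hT.self ht0] at this
      have := congrArg (fun L : E →L[ℝ] E => L (x t)) this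
      simpa using this.symm
    have h5 : ‖T t₀ t (x t)‖ ≤ ‖x t₀‖ + 1 := by
      have e : T t₀ t (x t) = x t₀ + (T t₀ t (x t) - x t₀) := by abel
      rw [e]
      exact (norm_add_le _ _).trans (by gcongr; exact hω T hAp hT t ht)
    calc ‖x t‖ = ‖T t t₀ (T t₀ t (x t))‖ := by rw [← e2]
      _ ≤ ‖T t t₀‖ * ‖T t₀ t (x t)‖ := (T t t₀).le_opNorm _
      _ ≤ _ := by gcongr

end Pool.Agent.H373R3.MY
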